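import Pool.Agent.H80.LD.Targets2
import Pool.Agent.H47.LD.RPM

/-!
# MP_47c37b: the lattice systems (LRS)
-/

set_option autoImplicit false

open MeasureTheory SchwartzMap Filter Topology
open scoped ENNReal ContDiff InnerProductSpace

namespace Pool.Agent.H80.LD

open Pool.Agent.H43.DPC (V S SD)
open Pool.Agent.H47.LD (Re_apply)

noncomputable section

variable {d L : ℕ}

/-- the unit vector in the direction `j` -/
abbrev ej (j : Fin d) : V d := EuclideanSpace.single j 1

theorem inner_ej (j : Fin d) (y : V d) : ⟪ej j, y⟫_ℝ = y j := by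
  unfold ej
  rw [EuclideanSpace.inner_single_left]
  simp

theorem norm_ej (j : Fin d) : ‖ej j‖ = 1 := by
  simp [ej]

theorem Re_ej (j : Fin d) (y : V d) (i : Fin d) :
    (Re (ej j) y) i = if i = j then -(y i) else y i := by
  rw [Re_apply _ (norm_ej j), inner_ej]
  by_cases h : i = j
  · subst h
    simp [ej]
    ring
  · simp [ej, h]

/-- reversal of the `j`-th coordinate -/
def flip (j : Fin d) (x : Bx d L) : Bx d L := Function.update x j (Fin.rev (x j))

theorem flip_flip (j : Fin d) (x : Bx d L) : flip j (flip j x) = x := by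
  unfold flip
  simp

theorem bpos_apply (δ : ℝ) (x : Bx d L) (i : Fin d) :
    bpos δ x i = δ * (((x i : ℕ) : ℝ) - L + 1 / 2) := rfl

theorem bpos_flip (δ : ℝ) (j : Fin d) (x : Bx d L) :
    bpos δ (flip j x) = Re (ej j) (bpos δ x) := by
  ext i
  rw [Re_ej, bpos_apply, bpos_apply]
  by_cases h : i = j
  · subst h
    rw [if_pos rfl]
    have h1 : ((flip i x i : ℕ) : ℝ) = 2 * L - ((x i : ℕ) : ℝ) - 1 := by
      unfold flip
      rw [Function.update_self, Fin.val_rev]
      have h2 : (x i : ℕ) + 1 ≤ 2 * L := (x i).2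
      rw [Nat.cast_sub h2]
      push_cast
      ring
    rw [h1]
    ring
  · rw [if_neg h]
    unfold flip
    rw [Function.update_of_ne h]

theorem bpos_inj {δ : ℝ} (hδ : 0 < δ) {x y : Bx d L} (h : bpos δ x = bpos δ y) : x = y := by
  funext i
  have h1 := congrArg (fun v : V d => v i) h
  simp only [bpos_apply] at h1
  have h2 := mul_left_cancel₀ hδ.ne' h1
  have h3 : ((x i : ℕ) : ℝ) = ((y i : ℕ) : ℝ) := by linarith
  exact Fin.ext (by exact_mod_cast h3)

theorem bpos_half {δ : ℝ} (hδ : 0 < δ) (j : Fin d) (x : Bx d L) (h : 0 < bpos δ x j) :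
    δ / 2 ≤ bpos δ x j := by
  rw [bpos_apply] at h ⊢
  have h1 : 0 < ((x j : ℕ) : ℝ) - L + 1 / 2 := by
    by_contra hn
    push Not at hn
    have := mul_nonpos_of_nonneg_of_nonpos hδ.le hn
    linarith
  have h2 : (L : ℝ) < ((x j : ℕ) : ℝ) + 1 := by linarith
  have h3 : L < (x j : ℕ) + 1 := by exact_mod_cast h2
  have h4 : L ≤ (x j : ℕ) := by omega
  have h5 : (L : ℝ) ≤ ((x j : ℕ) : ℝ) := by exact_mod_cast h4
  nlinarith

theorem bpos_ne {δ : ℝ} (hδ : 0 < δ) (j : Fin d) (x : Bx d L) : bpos δ x j ≠ 0 := by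
  rw [bpos_apply]
  refine mul_ne_zero hδ.ne' fun h => ?_
  have h1 : 2 * ((x j : ℕ) : ℝ) + 1 = 2 * L := by linarith
  have h2 : 2 * (x j : ℕ) + 1 = 2 * L := by exact_mod_cast h1
  omega

theorem bJ_nonneg {δ κ κ' s : ℝ} (hκ : 0 ≤ κ) (hκ' : 0 ≤ κ') (x y : Bx d L) :
    0 ≤ bJ δ κ κ' s x y := by
  unfold bJ
  have h1 : 0 ≤ (if x = y then 0 else κ * ‖bpos δ x - bpos δ y‖ ^ (-(2 * s))) := by
    split_ifs
    · exact le_rfl
    · exact mul_nonneg hκ (Real.rpow_nonneg (norm_nonneg _) _)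
  have h2 : 0 ≤ (if ‖bpos δ x - bpos δ y‖ = δ then κ' else 0) := by
    split_ifs
    · exact hκ'
    · exact le_rfl
  linarith

theorem bJ_symm (δ κ κ' s : ℝ) (x y : Bx d L) : bJ δ κ κ' s x y = bJ δ κ κ' s y x := by
  unfold bJ
  rw [norm_sub_rev]
  by_cases h : x = y
  · subst h; rfl
  · rw [if_neg h, if_neg (Ne.symm h)]

theorem bJ_flip (δ κ κ' s : ℝ) (j : Fin d) (x y : Bx d L) :
    bJ δ κ κ' s (flip j x) (flip j y) = bJ δ κ κ' s x y := by
  unfold bJ
  have h1 : ‖bpos δ (flip j x) - bpos δ (flip j y)‖ = ‖bpos δ x - bpos δ y‖ := by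
    rw [bpos_flip, bpos_flip, ← map_sub, LinearIsometryEquiv.norm_map]
  have h2 : flip j x = flip j y ↔ x = y := by
    constructor
    · intro h
      have := congrArg (flip j) h
      rwa [flip_flip, flip_flip] at this
    · rintro rfl; rfl
  rw [h1]
  by_cases h : x = y
  · rw [if_pos h, if_pos (h2.2 h)]
  · rw [if_neg h, if_neg (fun h' => h (h2.1 h'))]

/-- nearest neighbours across the hyperplane -/
theorem nn_eq {δ : ℝ} (hδ : 0 < δ) (j : Fin d) (x y : Bx d L) (hx : 0 < bpos δ x j)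
    (hy : 0 < bpos δ y j) (h : ‖Re (ej j) (bpos δ x) - bpos δ y‖ = δ) : x = y := by
  have ha := bpos_half hδ j x hx
  have hb := bpos_half hδ j y hy
  have hsq : ∑ i, (Re (ej j) (bpos δ x) - bpos δ y) i ^ 2 = δ ^ 2 := by
    have h5 := EuclideanSpace.norm_sq_eq (Re (ej j) (bpos δ x) - bpos δ y)
    rw [h] at h5
    rw [h5]
    simp only [Real.norm_eq_abs, sq_abs]
  have hwj : (Re (ej j) (bpos δ x) - bpos δ y) j = -(bpos δ x j + bpos δ y j) := by
    rw [PiLp.sub_apply, Re_ej, if_pos rfl]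
    ring
  have hwi : ∀ i, i ≠ j → (Re (ej j) (bpos δ x) - bpos δ y) i = bpos δ x i - bpos δ y i := by
    intro i hi
    rw [PiLp.sub_apply, Re_ej, if_neg hi]
  rw [← Finset.add_sum_erase _ _ (Finset.mem_univ j), hwj] at hsq
  have hrest : 0 ≤ ∑ i ∈ Finset.univ.erase j, (Re (ej j) (bpos δ x) - bpos δ y) i ^ 2 :=
    Finset.sum_nonneg fun i _ => sq_nonneg _
  have hge : δ ^ 2 ≤ (-(bpos δ x j + bpos δ y j)) ^ 2 := by
    rw [neg_sq]
    exact pow_le_pow_left₀ hδ.le (by linarith) 2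
  have h0 : ∑ i ∈ Finset.univ.erase j, (Re (ej j) (bpos δ x) - bpos δ y) i ^ 2 = 0 := by
    linarith
  have hj : (bpos δ x j + bpos δ y j) ^ 2 = δ ^ 2 := by
    rw [neg_sq] at hsq
    linarith
  have hj' : bpos δ x j + bpos δ y j = δ := by
    have := abs_eq_abs.2 (sq_eq_sq_iff_eq_or_eq_neg.1 hj)
    rwa [abs_of_pos (by linarith), abs_of_pos hδ] at this
  apply bpos_inj hδ
  ext i
  by_cases hi : i = j
  · subst hi
    linarith
  · have h1 := (Finset.sum_eq_zero_iff_of_nonneg (fun i _ => sq_nonneg _)).1 h0 i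
      (Finset.mem_erase.2 ⟨hi, Finset.mem_univ i⟩)
    rw [hwi i hi] at h1
    have := pow_eq_zero_iff (two_ne_zero) |>.1 h1
    linarith

/-- the power law part -/
theorem power_nonneg (hRPK : T_RPK) {δ s : ℝ} (hs : (d : ℝ) ≤ 2 * s) (j : Fin d)
    (c : Bx d L → ℝ) (hc : ∀ x, ¬ 0 < bpos δ x j → c x = 0) :
    0 ≤ ∑ x, ∑ y, c x * c y * ‖Re (ej j) (bpos δ x) - bpos δ y‖ ^ (-(2 * s)) := by
  classical
  set P : Finset (Bx d L) := Finset.univ.filter (fun x => 0 < bpos δ x j) with hP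
  set E := P.equivFin with hE
  have hsum : ∀ F : Bx d L → ℝ, (∀ x, ¬ 0 < bpos δ x j → F x = 0) →
      ∑ x, F x = ∑ i : Fin P.card, F (E.symm i).1 := by
    intro F hF
    rw [Equiv.sum_comp E.symm (fun x : P => F x.1), Finset.sum_coe_sort P F]
    refine (Finset.sum_subset (Finset.subset_univ P) fun x _ hx => ?_).symm
    refine hF x fun h => hx ?_
    rw [hP, Finset.mem_filter]
    exact ⟨Finset.mem_univ x, h⟩
  have h1 := hRPK d (ej j) (norm_ej j) s hs P.card (fun i => bpos δ (E.symm i).1)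
    (fun i => c (E.symm i).1) (fun i => by
      rw [inner_ej]
      exact (Finset.mem_filter.1 (E.symm i).2).2)
  refine h1.trans (le_of_eq ?_)
  rw [hsum (fun x => ∑ y, c x * c y * ‖Re (ej j) (bpos δ x) - bpos δ y‖ ^ (-(2 * s)))]
  · refine Finset.sum_congr rfl fun i _ => ?_
    rw [hsum (fun y => c (E.symm i).1 * c y *
      ‖Re (ej j) (bpos δ (E.symm i).1) - bpos δ y‖ ^ (-(2 * s)))]
    intro y hy
    rw [hc y hy]
    ring
  · intro x hx
    refine Finset.sum_eq_zero fun y _ => ?_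
    rw [hc x hx]
    ring

theorem bJ_rp (hRPK : T_RPK) {δ κ κ' s : ℝ} (hδ : 0 < δ) (hκ : 0 ≤ κ) (hκ' : 0 ≤ κ')
    (hs : (d : ℝ) ≤ 2 * s) (j : Fin d) (c : Bx d L → ℝ)
    (hc : ∀ x, bpos δ x j < 0 → c x = 0) :
    0 ≤ ∑ x, ∑ y, c x * c y * bJ δ κ κ' s (flip j x) y := by
  have hc' : ∀ x, ¬ 0 < bpos δ x j → c x = 0 := by
    intro x hx
    refine hc x ?_
    rcases lt_or_gt_of_ne (bpos_ne hδ j x) with h | h
    · exact h
    · exact absurd h hx
  have hterm : ∀ x y, c x * c y * bJ δ κ κ' s (flip j x) y =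
      κ * (c x * c y * ‖Re (ej j) (bpos δ x) - bpos δ y‖ ^ (-(2 * s))) +
      c x * c y * (if ‖Re (ej j) (bpos δ x) - bpos δ y‖ = δ then κ' else 0) := by
    intro x y
    by_cases hx : 0 < bpos δ x j
    · by_cases hy : 0 < bpos δ y j
      · unfold bJ
        have hne : flip j x ≠ y := by
          intro h
          have h1 := congrArg (fun z => bpos δ z j) h
          simp only at h1
          rw [bpos_flip, Re_ej, if_pos rfl] at h1
          linarith
        rw [if_neg hne, bpos_flip]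
        ring
      · rw [hc' y hy]
        ring
    · rw [hc' x hx]
      ring
  simp only [hterm, Finset.sum_add_distrib, ← Finset.mul_sum]
  refine add_nonneg (mul_nonneg hκ (power_nonneg hRPK hs j c hc')) ?_
  refine Finset.sum_nonneg fun x _ => Finset.sum_nonneg fun y _ => ?_
  by_cases h0 : c x * c y = 0
  · rw [h0, zero_mul]
  · have hx : 0 < bpos δ x j := by
      by_contra hx
      exact h0 (by rw [hc' x hx, zero_mul])
    have hy : 0 < bpos δ y j := by
      by_contra hy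
      exact h0 (by rw [hc' y hy, mul_zero])
    split_ifs with h
    · have := nn_eq hδ j x y hx hy h
      subst this
      exact mul_nonneg (mul_self_nonneg _) hκ'
    · rw [mul_zero]

/-- the lattice system -/
def latSys (hRPK : T_RPK) (d L : ℕ) (j : Fin d) (δ κ κ' s g b w : ℝ) (hδ : 0 < δ) (hκ : 0 ≤ κ)
    (hκ' : 0 ≤ κ') (hs : (d : ℝ) ≤ 2 * s) (hg : 0 < g) (hw : 0 ≤ w) : Sys d (ej j) where
  N := Fintype.card (Bx d L)
  pos := fun x => bpos δ ((Fintype.equivFin (Bx d L)).symm x)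
  w := fun _ => w
  J := fun x y => bJ δ κ κ' s ((Fintype.equivFin (Bx d L)).symm x)
    ((Fintype.equivFin (Bx d L)).symm y)
  g := fun _ => g
  b := fun _ => b
  σ := fun x => Fintype.equivFin (Bx d L) (flip j ((Fintype.equivFin (Bx d L)).symm x))
  w_nonneg := fun _ => hw
  J_nonneg := fun x y => bJ_nonneg hκ hκ' _ _
  J_symm := fun x y => bJ_symm _ _ _ _ _ _
  g_pos := fun _ => hg
  σ_σ := fun x => by simp [flip_flip]
  pos_σ := fun x => by simp [bpos_flip]
  off := fun x => by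
    rw [inner_ej]
    exact bpos_ne hδ j _
  w_σ := fun _ => rfl
  g_σ := fun _ => rfl
  b_σ := fun _ => rfl
  J_σ := fun x y => by simp [bJ_flip]
  rp := fun c hc => by
    have h := bJ_rp hRPK hδ hκ hκ' hs j (fun x => c (Fintype.equivFin (Bx d L) x)) (fun x hx => by
      refine hc _ ?_
      rw [inner_ej, Equiv.symm_apply_apply]
      exact hx)
    refine h.trans (le_of_eq ?_)
    rw [← Equiv.sum_comp (Fintype.equivFin (Bx d L))]
    refine Finset.sum_congr rfl fun x _ => ?_
    rw [← Equiv.sum_comp (Fintype.equivFin (Bx d L))]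
    refine Finset.sum_congr rfl fun y _ => ?_
    simp

/-- a density and a measurable equivalence -/
theorem map_withDensity_equiv {X Y : Type*} [MeasurableSpace X] [MeasurableSpace Y]
    (μ : Measure X) (ν : Measure Y) (T : X ≃ᵐ Y) (hT : MeasurePreserving T μ ν) (f : Y → ℝ≥0∞) :
    (μ.withDensity (fun x => f (T x))).map T = ν.withDensity f := by
  ext s hs
  rw [Measure.map_apply T.measurable hs, withDensity_apply _ (T.measurable hs),
    withDensity_apply _ hs, ← hT.setLIntegral_comp_preimage_emb T.measurableEmbedding]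

theorem sumev_isField {ι : Type} [Fintype ι] (pos : ι → V d) (w : ι → ℝ) :
    IsField pos w (fun φ => ∑ x, (w x * φ x) • ev (pos x)) := by
  intro φ f
  have h : ∀ (s : Finset ι), (∑ x ∈ s, (w x * φ x) • ev (pos x)) f =
      ∑ x ∈ s, w x * φ x * f (pos x) := by
    intro s
    induction s using Finset.cons_induction with
    | empty => rfl
    | cons a s ha ih =>
      rw [Finset.sum_cons, Finset.sum_cons, ← ih]
      rfl
  exact h Finset.univ

theorem pf_LRS (hRPK : T_RPK) : T_LRS := by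
  intro d L j δ κ κ' s g b w hδ hκ hκ' hs hg hw
  refine ⟨latSys hRPK d L j δ κ κ' s g b w hδ hκ hκ' hs hg hw, fun φ => ∑ x, (w * φ x) • ev _,
    fun φ => ∑ x, (w * φ x) • ev (bpos δ x), sumev_isField _ _, sumev_isField _ _, ?_⟩
  set A := latSys hRPK d L j δ κ κ' s g b w hδ hκ hκ' hs hg hw with hA
  set E := Fintype.equivFin (Bx d L) with hE
  let T : (Bx d L → ℝ) ≃ᵐ (Fin A.N → ℝ) :=
    MeasurableEquiv.piCongrLeft (fun _ : Fin (Fintype.card (Bx d L)) => ℝ) E
  have hT : MeasurePreserving T volume volume :=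
    volume_measurePreserving_piCongrLeft (fun _ : Fin (Fintype.card (Bx d L)) => ℝ) E
  have hTa : ∀ (φ : Bx d L → ℝ) (x : Bx d L), T φ (E x) = φ x := by
    intro φ x
    exact Equiv.piCongrLeft_apply_apply (P := fun _ : Fin (Fintype.card (Bx d L)) => ℝ) E φ x
  have hH : ∀ φ : Bx d L → ℝ, A.H (T φ) = bH δ κ κ' s g b φ := by
    intro φ
    unfold Sys.H bH
    have h1 : ∑ x : Fin A.N, (A.g x * T φ x ^ 4 + A.b x * T φ x ^ 2) =
        ∑ x : Bx d L, (g * φ x ^ 4 + b * φ x ^ 2) := by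
      refine (Equiv.sum_comp E (fun x : Fin A.N => (A.g x * T φ x ^ 4 +
        A.b x * T φ x ^ 2))).symm.trans ?_
      refine Finset.sum_congr rfl fun x _ => ?_
      rw [hTa]
      rfl
    have h2 : ∑ x : Fin A.N, ∑ y : Fin A.N, A.J x y * T φ x * T φ y =
        ∑ x : Bx d L, ∑ y : Bx d L, bJ δ κ κ' s x y * φ x * φ y := by
      refine (Equiv.sum_comp E (fun x : Fin A.N => ∑ y : Fin A.N,
        A.J x y * T φ x * T φ y)).symm.trans ?_
      refine Finset.sum_congr rfl fun x _ => ?_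
      refine (Equiv.sum_comp E (fun y : Fin A.N => A.J (E x) y * T φ (E x) * T φ y)).symm.trans ?_
      refine Finset.sum_congr rfl fun y _ => ?_
      rw [hTa, hTa]
      have : A.J (E x) (E y) = bJ δ κ κ' s x y := by
        change bJ δ κ κ' s (E.symm (E x)) (E.symm (E y)) = _
        rw [Equiv.symm_apply_apply, Equiv.symm_apply_apply]
      rw [this]
    rw [h1, h2]
  have hZ : ∫⁻ φ : Fin A.N → ℝ, ENNReal.ofReal (Real.exp (-A.H φ)) =
      ∫⁻ φ : Bx d L → ℝ, ENNReal.ofReal (Real.exp (-bH δ κ κ' s g b φ)) := by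
    rw [← hT.lintegral_comp_emb T.measurableEmbedding]
    simp only [hH]
  have hlaw : A.law = ((∫⁻ φ : Bx d L → ℝ, ENNReal.ofReal (Real.exp (-bH δ κ κ' s g b φ)))⁻¹ •
      volume.withDensity (fun φ : Bx d L → ℝ =>
        ENNReal.ofReal (Real.exp (-bH δ κ κ' s g b φ)))).map T := by
    unfold Sys.law
    rw [hZ, Measure.map_smul, ← map_withDensity_equiv volume volume T hT]
    simp only [hH]
  have hmeas : Measurable (fun φ : Fin A.N → ℝ => ∑ x, (w * φ x) • ev (A.pos x)) := by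
    refine Continuous.measurable ?_
    refine continuous_finsetSum _ fun x _ => ?_
    exact (continuous_const.mul (continuous_apply x)).smul continuous_const
  unfold bgibbs
  rw [hlaw, Measure.map_map hmeas T.measurable]
  congr 1
  funext φ
  simp only [Function.comp]
  refine (Equiv.sum_comp E (fun x : Fin A.N => (w * T φ x) • ev (A.pos x))).symm.trans ?_
  refine Finset.sum_congr rfl fun x _ => ?_
  rw [hTa]
  have h1 : A.pos (E x) = bpos δ x := by
    change bpos δ (E.symm (E x)) = _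
    rw [Equiv.symm_apply_apply]
  rw [h1]

end

end Pool.Agent.H80.LD
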