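import Pool.Agent.H80.LD.Targets2

/-!
# MP_47c37b: the good properties survive limits in law (CLO, EVB)
-/

set_option autoImplicit false

open MeasureTheory SchwartzMap Filter Topology
open scoped ENNReal ContDiff InnerProductSpace

namespace Pool.Agent.H80.LD

open Pool.Agent.H43.DPC (V S SD moment trans rot IsMAO Diag)

variable {d : ℕ}

theorem tev_lin (T : SD d) {n : ℕ} (c : Fin n → ℝ) (f : Fin n → S d) :
    T (∑ i, c i • f i) = ∑ i, c i * T (f i) := by
  rw [map_sum]
  refine Finset.sum_congr rfl fun i _ => ?_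
  rw [map_smul]
  rfl

theorem tev_meas (f : S d) : Measurable (fun T : SD d => T f) :=
  (WeakDual.eval_continuous f).measurable

theorem mom_ml {n : ℕ} (μ : Measure (SD d)) (f : Fin n → S d) :
    moment μ f = ml μ (List.ofFn f) := by
  unfold moment ml
  apply integral_congr_ae
  refine Eventually.of_forall (fun T => ?_)
  simp only [List.map_ofFn, List.prod_ofFn, Function.comp]

theorem mom_ml2 (μ : Measure (SD d)) (f g : S d) : moment μ ![f, g] = ml μ [f, g] := by
  rw [mom_ml]
  congr 1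

theorem mom_pow (μ : Measure (SD d)) (n : ℕ) (f : S d) :
    moment μ (fun _ : Fin n => f) = ∫ T : SD d, (T f) ^ n ∂μ := by
  unfold moment
  simp only [Finset.prod_const, Finset.card_univ, Fintype.card_fin]

theorem mom_two (μ : Measure (SD d)) (f : S d) :
    moment μ ![f, f] = ∫ T : SD d, (T f) ^ 2 ∂μ := by
  unfold moment
  refine integral_congr_ae (Eventually.of_forall fun T => ?_)
  simp only [Fin.prod_univ_two, Matrix.cons_val_zero, Matrix.cons_val_one]
  ring

theorem pow_int {μ : Measure (SD d)} [IsProbabilityMeasure μ] (hM : IsMAO μ) (f : S d) (n : ℕ) :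
    Integrable (fun T : SD d => (T f) ^ n) μ := by
  have h := (hM f (n : ℝ≥0∞) (ENNReal.natCast_ne_top n)).integrable_norm_pow'
  refine Integrable.mono h ((tev_meas f).pow_const n).aestronglyMeasurable
    (Eventually.of_forall fun T => ?_)
  rw [norm_pow, norm_pow, norm_norm]

/-- the Gaussian bound for a single nonnegative test function -/
theorem even_nonneg (hPRB : T_PRB) {μ : Measure (SD d)} (hD : Dom μ) (h : S d)
    (h0 : ∀ x, 0 ≤ h x) (p : ℕ) :
    (∫ T : SD d, (T h) ^ (2 * p) ∂μ) * (2 ^ p * (p.factorial : ℝ)) ≤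
      ((2 * p).factorial : ℝ) * (∫ T : SD d, (T h) ^ 2 ∂μ) ^ p := by
  have h1 := hD.gau (2 * p) (fun _ => h) (fun _ x => h0 x)
  rw [mom_pow, mom_two] at h1
  have h2 := hPRB.const (2 * p) (∫ T : SD d, (T h) ^ 2 ∂μ) Finset.univ p (by
    rw [Finset.card_univ, Fintype.card_fin])
  rw [← h2]
  exact mul_le_mul_of_nonneg_right h1 (by positivity)

theorem even_le (hPRB : T_PRB) {μ : Measure (SD d)} (hD : Dom μ) (f h : S d)
    (hh : ∀ x, |f x| ≤ h x) (p : ℕ) :
    (∫ T : SD d, (T f) ^ (2 * p) ∂μ) * (2 ^ p * (p.factorial : ℝ)) ≤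
      ((2 * p).factorial : ℝ) * (∫ T : SD d, (T h) ^ 2 ∂μ) ^ p := by
  have h3 := hD.maj (2 * p) (fun _ => f) (fun _ => h) (fun _ x => hh x)
  rw [mom_pow, mom_pow] at h3
  refine le_trans ?_ (even_nonneg hPRB hD h (fun x => (abs_nonneg _).trans (hh x)) p)
  exact mul_le_mul_of_nonneg_right ((le_abs_self _).trans h3) (by positivity)

theorem pf_EVB (hMAJ : T_MAJ) (hPRB : T_PRB) : T_EVB := by
  intro d μ _ hD f
  obtain ⟨h, hh⟩ := hMAJ d f
  exact ⟨∫ T : SD d, (T h) ^ 2 ∂μ, integral_nonneg fun T => sq_nonneg _,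
    fun p => even_le hPRB hD f h hh p⟩

/-- convergence of the characteristic functionals -/
def CF (ν : ℕ → Measure (SD d)) (μ : Measure (SD d)) : Prop :=
  ∀ f : S d,
    Tendsto (fun k => ∫ T : SD d, Complex.exp (Complex.I * ((T f : ℝ) : ℂ)) ∂(ν k)) atTop
      (𝓝 (∫ T : SD d, Complex.exp (Complex.I * ((T f : ℝ) : ℂ)) ∂μ))

theorem exp_cont (t : ℝ) :
    Continuous (fun x : ℝ => Complex.exp (Complex.I * ((t * x : ℝ) : ℂ))) := by
  fun_prop

theorem char_map (μ : Measure (SD d)) (f : S d) (t : ℝ) :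
    ∫ x, Complex.exp (Complex.I * ((t * x : ℝ) : ℂ)) ∂(μ.map (fun T : SD d => T f)) =
      ∫ T : SD d, Complex.exp (Complex.I * ((T (t • f) : ℝ) : ℂ)) ∂μ := by
  rw [integral_map (tev_meas f).aemeasurable (exp_cont t).aestronglyMeasurable]
  refine integral_congr_ae (Filter.Eventually.of_forall fun T => ?_)
  have : T (t • f) = t * T f := by
    rw [map_smul]
    rfl
  simp only [this]

theorem char_conv {ν : ℕ → Measure (SD d)} {μ : Measure (SD d)} (hL : CF ν μ) (f : S d) (t : ℝ) :
    Tendsto (fun k => ∫ x, Complex.exp (Complex.I * ((t * x : ℝ) : ℂ))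
      ∂((ν k).map (fun T : SD d => T f))) atTop
      (𝓝 (∫ x, Complex.exp (Complex.I * ((t * x : ℝ) : ℂ)) ∂(μ.map (fun T : SD d => T f)))) := by
  simp only [char_map]
  exact hL (t • f)

theorem pow_map (μ : Measure (SD d)) (f : S d) (n : ℕ) :
    ∫ x, x ^ n ∂(μ.map (fun T : SD d => T f)) = ∫ T : SD d, (T f) ^ n ∂μ :=
  integral_map (tev_meas f).aemeasurable (continuous_pow n).aestronglyMeasurable

theorem pow_map_int (μ : Measure (SD d)) (f : S d) (n : ℕ) :
    Integrable (fun x : ℝ => x ^ n) (μ.map (fun T : SD d => T f)) ↔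
      Integrable (fun T : SD d => (T f) ^ n) μ :=
  integrable_map_measure (continuous_pow n).aestronglyMeasurable (tev_meas f).aemeasurable

/-- the second moments are bounded -/
theorem second_bdd (hKTS : T_KTS) (hPRB : T_PRB) {ν : ℕ → Measure (SD d)} {μ : Measure (SD d)}
    [IsProbabilityMeasure μ] (hν : ∀ k, IsProbabilityMeasure (ν k)) (hD : ∀ k, Dom (ν k))
    (hL : CF ν μ) (h : S d) (h0 : ∀ x, 0 ≤ h x) :
    ∃ C : ℝ, ∀ k, ∫ T : SD d, (T h) ^ 2 ∂(ν k) ≤ C := by
  obtain ⟨C, hC⟩ := hKTS (fun k => (ν k).map (fun T : SD d => T h)) (μ.map (fun T : SD d => T h))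
    (fun k => by
      have := hν k
      exact Measure.isProbabilityMeasure_map (tev_meas h).aemeasurable)
    (Measure.isProbabilityMeasure_map (tev_meas h).aemeasurable) (char_conv hL h)
    (fun k => by
      have := hν k
      exact (pow_map_int _ _ _).2 (pow_int (hD k).mao h 4))
    (fun k => by
      rw [pow_map, pow_map]
      have h2 := even_nonneg hPRB (hD k) h h0 2
      norm_num [Nat.factorial] at h2
      linarith)
  refine ⟨C, fun k => ?_⟩
  have := hC k
  rwa [pow_map] at this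

/-- the moments of one test function -/
theorem one_mom' (hMAJ : T_MAJ) (hKTS : T_KTS) (hWMC : T_WMC) (hPRB : T_PRB)
    {ν : ℕ → Measure (SD d)} {μ : Measure (SD d)}
    [IsProbabilityMeasure μ] (hν : ∀ k, IsProbabilityMeasure (ν k)) (hD : ∀ k, Dom (ν k))
    (hL : CF ν μ) (f : S d) (n : ℕ) :
    Integrable (fun T : SD d => (T f) ^ n) μ ∧
    Tendsto (fun k => ∫ T : SD d, (T f) ^ n ∂(ν k)) atTop (𝓝 (∫ T : SD d, (T f) ^ n ∂μ)) := by
  obtain ⟨h, hh⟩ := hMAJ d f
  obtain ⟨C, hC⟩ := second_bdd hKTS hPRB hν hD hL h fun x => (abs_nonneg _).trans (hh x)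
  have hw := hWMC (fun k => (ν k).map (fun T : SD d => T f)) (μ.map (fun T : SD d => T f))
    (fun k => by
      have := hν k
      exact Measure.isProbabilityMeasure_map (tev_meas f).aemeasurable)
    (Measure.isProbabilityMeasure_map (tev_meas f).aemeasurable) (char_conv hL f)
    (fun p => ⟨fun k => by
        have := hν k
        exact (pow_map_int _ _ _).2 (pow_int (hD k).mao f _),
      ((2 * p).factorial : ℝ) * (max C 0) ^ p, fun k => by
        rw [pow_map]
        have h1 := even_le hPRB (hD k) f h hh p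
        have h2 : 0 ≤ ∫ T : SD d, (T f) ^ (2 * p) ∂(ν k) :=
          integral_nonneg fun T => (even_two_mul p).pow_nonneg _
        have h3 : (1 : ℝ) ≤ 2 ^ p * (p.factorial : ℝ) := by
          have h4 : (1 : ℝ) ≤ 2 ^ p := one_le_pow₀ (by norm_num)
          have h5 : (1 : ℝ) ≤ (p.factorial : ℝ) := by exact_mod_cast p.factorial_pos
          nlinarith
        have h6 : ((2 * p).factorial : ℝ) * (∫ T : SD d, (T h) ^ 2 ∂(ν k)) ^ p ≤
            ((2 * p).factorial : ℝ) * (max C 0) ^ p :=
          mul_le_mul_of_nonneg_left (pow_le_pow_left₀ (integral_nonneg fun T => sq_nonneg _)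
            ((hC k).trans (le_max_left _ _)) p) (by positivity)
        nlinarith⟩) n
  obtain ⟨h1, h2⟩ := hw
  refine ⟨(pow_map_int _ _ _).1 h1, ?_⟩
  simp only [pow_map] at h2
  exact h2

theorem pf_CLO (hMAJ : T_MAJ) (hKTS : T_KTS) (hWMC : T_WMC) (hPOL : T_POL) (hPRB : T_PRB) :
    T_CLO := by
  intro d e ν μ hG hprob hL0
  have hL : CF ν μ := hL0
  have hν : ∀ k, IsProbabilityMeasure (ν k) := fun k => (hG k).prob
  have hD : ∀ k, Dom (ν k) := fun k => (hG k).dom
  have one := fun (f : S d) (n : ℕ) => one_mom' hMAJ hKTS hWMC hPRB hν hD hL f n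
  have hmao : IsMAO μ := by
    intro f p hp
    obtain ⟨m, hm⟩ : ∃ m : ℕ, p ≤ m := by
      obtain ⟨m, hm⟩ := ENNReal.exists_nat_gt hp
      exact ⟨m, hm.le⟩
    have hi := (one f (2 * (m + 1))).1
    have hne : ((2 * (m + 1) : ℕ) : ℝ≥0∞) ≠ 0 :=
      Nat.cast_ne_zero.2 (by omega)
    have hM : MemLp (fun T : SD d => T f) ((2 * (m + 1) : ℕ) : ℝ≥0∞) μ := by
      rw [← integrable_norm_rpow_iff (tev_meas f).aestronglyMeasurable hne
        (ENNReal.natCast_ne_top _)]
      refine hi.congr (Filter.Eventually.of_forall fun T => ?_)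
      simp only [ENNReal.toReal_natCast, Real.rpow_natCast, Real.norm_eq_abs]
      rw [Even.pow_abs (even_two_mul _)]
    refine hM.mono_exponent (hm.trans ?_)
    exact_mod_cast (by omega : m ≤ 2 * (m + 1))
  have hT : ∀ l : List (S d), Tendsto (fun k => ml (ν k) l) atTop (𝓝 (ml μ l)) := by
    intro l
    obtain ⟨n, f, rfl⟩ : ∃ (n : ℕ) (f : Fin n → S d), l = List.ofFn f :=
      ⟨l.length, l.get, (List.ofFn_get l).symm⟩
    set c : (Fin n → Bool) → Fin n → ℝ := fun ε i => if ε i then (1 : ℝ) else -1 with hc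
    have hK : (0 : ℝ) < 2 ^ n * (n.factorial : ℝ) := by positivity
    have e2 : ∀ (m : Measure (SD d)), (∀ f : S d, Integrable (fun T : SD d => (T f) ^ n) m) →
        ml m (List.ofFn f) = (2 ^ n * (n.factorial : ℝ))⁻¹ *
        ∑ ε : Fin n → Bool, (∏ i, c ε i) * ∫ T : SD d, (T (∑ i, c ε i • f i)) ^ n ∂m := by
      intro m hm
      unfold ml
      have h1 : ∀ T : SD d, ((List.ofFn f).map (fun f => T f)).prod =
          (2 ^ n * (n.factorial : ℝ))⁻¹ * ∑ ε : Fin n → Bool, (∏ i, c ε i) *
            (T (∑ i, c ε i • f i)) ^ n := by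
        intro T
        rw [List.map_ofFn, List.prod_ofFn, eq_inv_mul_iff_mul_eq₀ hK.ne']
        rw [show (∏ i, ((fun f => T f) ∘ f) i) = ∏ i, T (f i) from rfl,
          hPOL n (fun i => T (f i))]
        refine Finset.sum_congr rfl fun ε _ => ?_
        rw [tev_lin]
      simp only [h1]
      rw [integral_const_mul, integral_finsetSum]
      · simp only [integral_const_mul]
      · intro ε _
        exact (hm _).const_mul _
    rw [e2 μ fun f => (one f n).1]
    have e1 : ∀ k, ml (ν k) (List.ofFn f) = (2 ^ n * (n.factorial : ℝ))⁻¹ *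
        ∑ ε : Fin n → Bool, (∏ i, c ε i) * ∫ T : SD d, (T (∑ i, c ε i • f i)) ^ n ∂(ν k) := by
      intro k
      have := hν k
      exact e2 (ν k) fun f => pow_int (hD k).mao f n
    simp only [e1]
    refine Tendsto.const_mul _ (tendsto_finsetSum _ fun ε _ => ?_)
    exact ((one _ n).2).const_mul _
  refine ⟨hprob, ⟨hmao, ?_, ?_, ?_, ?_⟩, ?_⟩
  · intro n f hf
    rw [mom_ml]
    refine ge_of_tendsto' (hT (List.ofFn f)) (fun k => ?_)
    rw [← mom_ml]
    exact (hD k).pos n f hf
  · intro n f h hfh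
    rw [mom_ml, mom_ml]
    refine le_of_tendsto_of_tendsto' (hT (List.ofFn f)).abs (hT (List.ofFn h)) (fun k => ?_)
    rw [← mom_ml, ← mom_ml]
    exact (hD k).maj n f h hfh
  · intro n h hh
    rw [mom_ml]
    have h1 : Tendsto (fun k => pair (fun i j : Fin n => moment (ν k) ![h i, h j]) Finset.univ)
        atTop (𝓝 (pair (fun i j : Fin n => moment μ ![h i, h j]) Finset.univ)) := by
      have hc := hPRB.cont n (Finset.univ : Finset (Fin n))
      have h2 : Tendsto (fun k => (fun i j : Fin n => moment (ν k) ![h i, h j])) atTop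
          (𝓝 (fun i j : Fin n => moment μ ![h i, h j])) := by
        rw [tendsto_pi_nhds]
        intro i
        rw [tendsto_pi_nhds]
        intro j
        simp only [mom_ml2]
        exact hT [h i, h j]
      exact (hc.tendsto _).comp h2
    refine le_of_tendsto_of_tendsto' (hT (List.ofFn h)) h1 (fun k => ?_)
    rw [← mom_ml]
    exact (hD k).gau n h hh
  · intro n hn f
    rw [mom_ml]
    refine tendsto_nhds_unique (hT (List.ofFn f)) ?_
    have h1 : ∀ k, ml (ν k) (List.ofFn f) = 0 := by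
      intro k
      rw [← mom_ml]
      exact (hD k).odd n hn f
    simp only [h1]
    exact tendsto_const_nhds
  · intro m c F hF
    have h2 : Tendsto (fun k => ∑ j, ∑ l, c j * c l * ml (ν k) ((F j).map (rot (Re e)) ++ F l))
        atTop (𝓝 (∑ j, ∑ l, c j * c l * ml μ ((F j).map (rot (Re e)) ++ F l))) :=
      tendsto_finsetSum _ fun j _ => tendsto_finsetSum _ fun l _ => (hT _).const_mul _
    exact ge_of_tendsto' h2 fun k => (hG k).rp m c F hF

end Pool.Agent.H80.LD
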