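import Pool.Agent.H80.LD.Targets2
import Pool.Agent.H80.LD.CLO
import Pool.Agent.H49.LD.LMO

/-!
# MP_47c37b: the fields of finite systems are good (FIN)
-/

set_option autoImplicit false

open MeasureTheory SchwartzMap Filter Topology
open scoped ENNReal ContDiff InnerProductSpace

namespace Pool.Agent.H80.LD

open Pool.Agent.H43.DPC (V S SD moment trans rot IsMAO Diag)
open Pool.Agent.H49.LD (fld_cont fld_int)

variable {d : ℕ} {e : V d}

/-- the field as a distribution -/
noncomputable def fieldMap (A : Sys d e) (φ : Fin A.N → ℝ) : SD d :=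
  ∑ x, (A.w x * φ x) • ev (A.pos x)

theorem fieldMap_apply (A : Sys d e) (φ : Fin A.N → ℝ) (f : S d) :
    fieldMap A φ f = A.fld f φ := by
  unfold fieldMap Sys.fld
  have h : ∀ (s : Finset (Fin A.N)), (∑ x ∈ s, (A.w x * φ x) • ev (A.pos x)) f =
      ∑ x ∈ s, A.w x * φ x * f (A.pos x) := by
    intro s
    induction s using Finset.cons_induction with
    | empty => rfl
    | cons a s ha ih =>
      rw [Finset.sum_cons, Finset.sum_cons, ← ih]
      rfl
  exact h Finset.univ

theorem fieldMap_meas (A : Sys d e) : Measurable (fieldMap A) := by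
  refine Continuous.measurable ?_
  refine continuous_finsetSum _ fun x _ => ?_
  exact (continuous_const.mul (continuous_apply x)).smul continuous_const

theorem fieldMap_isField (A : Sys d e) : IsField A.pos A.w (fieldMap A) :=
  fun φ f => fieldMap_apply A φ f

theorem eq_fieldMap (A : Sys d e) (F : (Fin A.N → ℝ) → SD d) (hF : IsField A.pos A.w F) :
    F = fieldMap A := by
  funext φ
  refine DFunLike.ext _ _ fun f => ?_
  rw [hF φ f, fieldMap_apply]
  rfl

theorem ml_field (A : Sys d e) (l : List (S d)) : ml (A.law.map (fieldMap A)) l = mf A l := by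
  unfold ml mf
  have hm : Measurable (fun T : SD d => (l.map (fun f => T f)).prod) := by
    induction l with
    | nil => simp
    | cons a l ih =>
      simp only [List.map_cons, List.prod_cons]
      exact (tev_meas a).mul ih
  have h := integral_map (μ := A.law) (φ := fieldMap A) (fieldMap_meas A).aemeasurable
    hm.aestronglyMeasurable
  refine h.trans (integral_congr_ae (Eventually.of_forall fun φ => ?_))
  simp only [fieldMap_apply]

theorem pf_FIN (hLAW : T_LAW) (hGAF : T_GAF) (hRPF : T_RPF) : T_FIN := by
  intro d e A F hF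
  rw [eq_fieldMap A F hF]
  have hP : IsProbabilityMeasure A.law := (hLAW d e A).2.2.1
  have hP' : IsProbabilityMeasure (A.law.map (fieldMap A)) :=
    Measure.isProbabilityMeasure_map (fieldMap_meas A).aemeasurable
  have hmom : ∀ (n : ℕ) (f : Fin n → S d), moment (A.law.map (fieldMap A)) f = mf A (List.ofFn f) := by
    intro n f
    rw [mom_ml, ml_field]
  have hmom2 : ∀ f g : S d, moment (A.law.map (fieldMap A)) ![f, g] = mf A [f, g] := by
    intro f g
    rw [mom_ml2, ml_field]
  refine ⟨hP', ⟨?_, ?_, ?_, ?_, ?_⟩, ?_⟩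
  · intro f p hp
    obtain ⟨m, hm⟩ : ∃ m : ℕ, p ≤ m := by
      obtain ⟨m, hm⟩ := ENNReal.exists_nat_gt hp
      exact ⟨m, hm.le⟩
    have hi : Integrable (fun T : SD d => (T f) ^ (2 * (m + 1)))
        (A.law.map (fieldMap A)) := by
      have h1 := (integrable_map_measure (μ := A.law) (f := fieldMap A)
        (g := fun T : SD d => (T f) ^ (2 * (m + 1)))
        ((tev_meas f).pow_const _).aestronglyMeasurable (fieldMap_meas A).aemeasurable).2 (by
          refine (fld_int hLAW A f (2 * (m + 1))).congr (Eventually.of_forall fun φ => ?_)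
          simp only [Function.comp, fieldMap_apply])
      exact h1
    have hne : ((2 * (m + 1) : ℕ) : ℝ≥0∞) ≠ 0 :=
      Nat.cast_ne_zero.2 (by omega)
    have hM : MemLp (fun T : SD d => T f) ((2 * (m + 1) : ℕ) : ℝ≥0∞)
        (A.law.map (fieldMap A)) := by
      rw [← integrable_norm_rpow_iff (tev_meas f).aestronglyMeasurable hne
        (ENNReal.natCast_ne_top _)]
      refine hi.congr (Filter.Eventually.of_forall fun T => ?_)
      simp only [ENNReal.toReal_natCast, Real.rpow_natCast, Real.norm_eq_abs]
      rw [Even.pow_abs (even_two_mul _)]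
    refine hM.mono_exponent (hm.trans ?_)
    exact_mod_cast (by omega : m ≤ 2 * (m + 1))
  · intro n f hf
    rw [hmom]
    apply hGAF.pos
    intro g hg
    rw [List.mem_ofFn] at hg
    obtain ⟨i, rfl⟩ := hg
    exact hf i
  · intro n f h hfh
    rw [hmom, hmom]
    exact hGAF.maj d e A n f h hfh
  · intro n h hh
    rw [hmom]
    simp only [hmom2]
    exact hGAF.gau d e A n h hh
  · intro n hn f
    rw [hmom]
    apply hGAF.odd
    rw [List.length_ofFn]
    exact hn
  · intro m c F hF
    simp only [ml_field]
    exact hRPF d e A m c F hF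

end Pool.Agent.H80.LD
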