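import Pool.Agent.H80.LD.Targets2

/-!
# MP_47c37b: a special integral (GLS)
-/

set_option autoImplicit false

open MeasureTheory Filter Topology

namespace Pool.Agent.H80.LD

noncomputable section

/-- the root -/
def gR (r w y : ℝ) : ℝ := Real.sqrt (y ^ 2 + 2 * (r * w))

/-- the inverse of the square root of the new variable -/
def gt (r w y : ℝ) : ℝ := (y + gR r w y) / w

variable {r w : ℝ}

theorem gR_sq (hr : 0 < r) (hw : 0 < w) (y : ℝ) : gR r w y ^ 2 = y ^ 2 + 2 * (r * w) :=
  Real.sq_sqrt (by positivity)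

theorem gR_pos (hr : 0 < r) (hw : 0 < w) (y : ℝ) : 0 < gR r w y :=
  Real.sqrt_pos.2 (by positivity)

theorem abs_lt_gR (hr : 0 < r) (hw : 0 < w) (y : ℝ) : |y| < gR r w y := by
  unfold gR
  rw [← Real.sqrt_sq_eq_abs]
  refine Real.sqrt_lt_sqrt (sq_nonneg _) ?_
  have := mul_pos hr hw
  linarith

theorem gt_pos (hr : 0 < r) (hw : 0 < w) (y : ℝ) : 0 < gt r w y := by
  unfold gt
  have h1 := abs_lt_gR hr hw y
  have h2 := neg_abs_le y
  exact div_pos (by linarith) hw

theorem gt_inv (hr : 0 < r) (hw : 0 < w) (y : ℝ) : w * gt r w y / 2 - r / gt r w y = y := by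
  have h1 := gt_pos hr hw y
  have h2 := gR_sq hr hw y
  have h3 : w * gt r w y = y + gR r w y := by
    unfold gt
    field_simp
  have h4 : r / gt r w y = (gR r w y - y) / 2 := by
    rw [div_eq_iff h1.ne']
    have : gt r w y = (y + gR r w y) / w := rfl
    rw [this]
    field_simp
    nlinarith
  rw [h3, h4]
  ring

theorem hasDeriv_gt (hr : 0 < r) (hw : 0 < w) (y : ℝ) :
    HasDerivAt (gt r w) ((1 + y / gR r w y) / w) y := by
  have h1 : HasDerivAt (fun y : ℝ => y ^ 2 + 2 * (r * w)) (2 * y) y := by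
    have := (hasDerivAt_pow 2 y).add_const (2 * (r * w))
    simpa using this
  have h0 : y ^ 2 + 2 * (r * w) ≠ 0 := by positivity
  have h2 := h1.sqrt h0
  have h3 := ((hasDerivAt_id y).add h2).div_const w
  have h4 : (1 + 2 * y / (2 * Real.sqrt (y ^ 2 + 2 * (r * w)))) / w =
      (1 + y / gR r w y) / w := by
    unfold gR
    rw [mul_div_mul_left _ _ two_ne_zero]
  rw [h4] at h3
  exact h3

/-- the integrand -/
def gi (r w l : ℝ) : ℝ := l ^ (-(3 / 2) : ℝ) * Real.exp (-(l * r ^ 2) - w ^ 2 / (4 * l))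

theorem hasDeriv_f (hr : 0 < r) (hw : 0 < w) (y : ℝ) :
    HasDerivAt (fun y => (gt r w y ^ 2)⁻¹)
      (-(2 * gt r w y * ((1 + y / gR r w y) / w)) / (gt r w y ^ 2) ^ 2) y := by
  have h1 := (hasDeriv_gt hr hw y).pow 2
  have h2 := h1.inv (pow_ne_zero 2 (gt_pos hr hw y).ne')
  refine h2.congr_deriv ?_
  norm_num

theorem f_inj (hr : 0 < r) (hw : 0 < w) :
    Set.InjOn (fun y => (gt r w y ^ 2)⁻¹) Set.univ := by
  intro y _ z _ h
  simp only [inv_inj] at h
  have h1 := (pow_left_inj₀ (gt_pos hr hw y).le (gt_pos hr hw z).le two_ne_zero).1 h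
  rw [← gt_inv hr hw y, h1, gt_inv hr hw z]

theorem f_image (hr : 0 < r) (hw : 0 < w) :
    (fun y => (gt r w y ^ 2)⁻¹) '' Set.univ = Set.Ioi 0 := by
  ext l
  constructor
  · rintro ⟨y, -, rfl⟩
    have := gt_pos hr hw y
    simp only [Set.mem_Ioi]
    positivity
  · intro hl
    have hl' : 0 < l := hl
    set t : ℝ := (Real.sqrt l)⁻¹ with ht
    have hs : 0 < Real.sqrt l := Real.sqrt_pos.2 hl'
    have htp : 0 < t := inv_pos.2 hs
    refine ⟨w * t / 2 - r / t, Set.mem_univ _, ?_⟩
    have h1 : gR r w (w * t / 2 - r / t) = w * t / 2 + r / t := by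
      unfold gR
      have : (w * t / 2 - r / t) ^ 2 + 2 * (r * w) = (w * t / 2 + r / t) ^ 2 := by
        field_simp
        ring
      rw [this, Real.sqrt_sq (by positivity)]
    have h2 : gt r w (w * t / 2 - r / t) = t := by
      unfold gt
      rw [h1]
      field_simp
      ring
    simp only [h2]
    rw [ht, inv_pow, inv_inv, Real.sq_sqrt hl'.le]

theorem g_comp (hr : 0 < r) (hw : 0 < w) (y : ℝ) :
    |-(2 * gt r w y * ((1 + y / gR r w y) / w)) / (gt r w y ^ 2) ^ 2| *
      gi r w (gt r w y ^ 2)⁻¹ =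
    (2 / w * Real.exp (-(r * w))) * (Real.exp (-y ^ 2) + y / gR r w y * Real.exp (-y ^ 2)) := by
  have ht := gt_pos hr hw y
  have hR := gR_pos hr hw y
  have h1 : 0 < 1 + y / gR r w y := by
    have h2 := abs_lt_gR hr hw y
    have h3 := neg_abs_le y
    have h4 : -1 < y / gR r w y := by
      rw [lt_div_iff₀ hR]
      linarith
    linarith
  have h2 : |-(2 * gt r w y * ((1 + y / gR r w y) / w)) / (gt r w y ^ 2) ^ 2| =
      2 * ((1 + y / gR r w y) / w) / gt r w y ^ 3 := by
    rw [neg_div, abs_neg, abs_of_nonneg (by positivity)]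
    field_simp
  have h3 : ((gt r w y ^ 2)⁻¹) ^ (-(3 / 2) : ℝ) = gt r w y ^ 3 := by
    rw [Real.inv_rpow (by positivity), Real.rpow_neg (by positivity), inv_inv,
      ← Real.rpow_natCast (gt r w y) 2, ← Real.rpow_mul ht.le]
    norm_num
  have h4 : -((gt r w y ^ 2)⁻¹ * r ^ 2) - w ^ 2 / (4 * (gt r w y ^ 2)⁻¹) = -(r * w) + -y ^ 2 := by
    have h5 := gt_inv hr hw y
    have h6 : (w * gt r w y / 2 - r / gt r w y) ^ 2 = y ^ 2 := by rw [h5]
    have h7 : (w * gt r w y / 2 - r / gt r w y) ^ 2 =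
        (gt r w y ^ 2)⁻¹ * r ^ 2 + w ^ 2 / (4 * (gt r w y ^ 2)⁻¹) - r * w := by
      field_simp
      ring
    linarith
  unfold gi
  rw [h2, h3, h4, Real.exp_add]
  field_simp

theorem pf_GLS : T_GLS := by
  intro r w hr hw
  have hI0 : Integrable (fun y : ℝ => Real.exp (-y ^ 2)) := by
    have := integrable_exp_neg_mul_sq (b := 1) one_pos
    simpa using this
  have hRc : Continuous (gR r w) := by
    unfold gR
    fun_prop
  have hI1 : Integrable (fun y : ℝ => y / gR r w y * Real.exp (-y ^ 2)) := by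
    refine hI0.mono' ?_ (Eventually.of_forall fun y => ?_)
    · refine Continuous.aestronglyMeasurable ?_
      refine (continuous_id.div hRc fun y => (gR_pos hr hw y).ne').mul ?_
      fun_prop
    · rw [Real.norm_eq_abs, abs_mul, abs_of_pos (Real.exp_pos _), abs_div,
        abs_of_pos (gR_pos hr hw y)]
      refine mul_le_of_le_one_left (Real.exp_pos _).le ?_
      rw [div_le_one (gR_pos hr hw y)]
      exact (abs_lt_gR hr hw y).le
  have hodd : ∫ y : ℝ, y / gR r w y * Real.exp (-y ^ 2) = 0 := by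
    have h1 := integral_neg_eq_self (fun y : ℝ => y / gR r w y * Real.exp (-y ^ 2)) volume
    have h2 : ∀ y : ℝ, (-y) / gR r w (-y) * Real.exp (-(-y) ^ 2) =
        -(y / gR r w y * Real.exp (-y ^ 2)) := by
      intro y
      have h3 : gR r w (-y) = gR r w y := by
        unfold gR
        rw [neg_sq]
      rw [h3, neg_sq]
      ring
    simp only [h2, integral_neg] at h1
    linarith
  have hgauss : ∫ y : ℝ, Real.exp (-y ^ 2) = Real.sqrt Real.pi := by
    have := integral_gaussian 1
    simpa using this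
  have hint := (hI0.add hI1).const_mul (2 / w * Real.exp (-(r * w)))
  have hd : ∀ y ∈ (Set.univ : Set ℝ), HasDerivWithinAt (fun y => (gt r w y ^ 2)⁻¹)
      (-(2 * gt r w y * ((1 + y / gR r w y) / w)) / (gt r w y ^ 2) ^ 2) Set.univ y :=
    fun y _ => (hasDeriv_f hr hw y).hasDerivWithinAt
  constructor
  · have h1 := integrableOn_image_iff_integrableOn_abs_deriv_smul (g := gi r w)
      MeasurableSet.univ hd (f_inj hr hw)
    rw [f_image hr hw] at h1
    refine h1.2 ?_
    rw [integrableOn_univ]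
    refine hint.congr (Eventually.of_forall fun y => ?_)
    simp only [Pi.add_apply, smul_eq_mul]
    exact (g_comp hr hw y).symm
  · have h1 := integral_image_eq_integral_abs_deriv_smul (g := gi r w)
      MeasurableSet.univ hd (f_inj hr hw)
    rw [f_image hr hw, setIntegral_univ] at h1
    refine h1.trans ?_
    simp only [smul_eq_mul, g_comp hr hw]
    rw [integral_const_mul, integral_add hI0 hI1, hgauss, hodd]
    ring

end

end Pool.Agent.H80.LD
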