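import Pool.Agent.H80.LD.Targets
import Pool.Agent.H15.DPC.LAT
import Pool.Agent.H14.DPC.SEP
import Pool.Agent.H98.DPC.HOL
import Pool.Agent.H70.DPC.WSP

/-!
# MP_47c37b: gluing (GLU)
-/

set_option autoImplicit false

open MeasureTheory SchwartzMap Filter Topology
open scoped ENNReal ContDiff

namespace Pool.Agent.H80.LD

open Pool.Agent.H43.DPC (V S SD moment trans rot IsMAO Diag cut cell box T_LAT T_HOL T_WSP)
open Pool.Agent.H43.DPCS (TransInv RotInv SelfSim Cond1 OffDiag)

/-- a normed bump as a Schwartz function -/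
theorem exists_bump {d : ℕ} (c : V d) {r : ℝ} (hr : 0 < r) :
    ∃ φ : S d, (∀ x, 0 ≤ φ x) ∧ HasCompactSupport φ ∧ tsupport φ ⊆ Metric.ball c r ∧
      ∫ x, φ x = 1 := by
  let φ : ContDiffBump c := ⟨r / 4, r / 2, by positivity, by linarith⟩
  have h1 : HasCompactSupport (φ.normed volume) := φ.hasCompactSupport_normed
  have h2 : ContDiff ℝ ∞ (φ.normed volume) := φ.contDiff_normed
  refine ⟨h1.toSchwartzMap h2, fun x => ?_, ?_, ?_, ?_⟩
  · exact φ.nonneg_normed x
  · exact h1
  · have h3 : tsupport (φ.normed volume) = Metric.closedBall c (r / 2) := φ.tsupport_normed_eq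
    change tsupport (φ.normed volume) ⊆ _
    rw [h3]
    exact Metric.closedBall_subset_ball (by linarith)
  · exact φ.integral_normed

theorem integral_prod_one {d n : ℕ} (f : Fin n → S d) (h : ∀ i, ∫ x, f i x = 1) :
    ∫ y : Fin n → V d, ∏ i, f i (y i) = 1 := by
  rw [integral_fintype_prod_volume_eq_prod (fun i => fun x => f i x)]
  exact Finset.prod_eq_one fun i _ => h i

theorem integrable_prod {d n : ℕ} (f : Fin n → S d) :
    Integrable (fun y : Fin n → V d => ∏ i, f i (y i)) :=
  Integrable.fintype_prod fun i => (f i).integrable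

theorem prod_ne_zero_mem {d n : ℕ} (f : Fin n → S d) {y : Fin n → V d}
    (h : ∏ i, f i (y i) ≠ 0) (i : Fin n) : y i ∈ tsupport (f i) := by
  rw [Finset.prod_ne_zero_iff] at h
  exact subset_closure (h i (Finset.mem_univ i))

/-- averages of a function which is nearly constant on the supports -/
theorem avg_close {d n : ℕ} (u : (Fin n → V d) → ℝ) (hu : Continuous u) (c ε : ℝ)
    (f : Fin n → S d) (h0 : ∀ i x, 0 ≤ f i x) (hc : ∀ i, HasCompactSupport (f i))
    (h1 : ∀ i, ∫ x, f i x = 1)
    (hε : ∀ y : Fin n → V d, (∀ i, y i ∈ tsupport (f i)) → |u y - c| ≤ ε) :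
    |(∫ y, u y * ∏ i, f i (y i)) - c| ≤ ε := by
  have hI : Integrable (fun y : Fin n → V d => ∏ i, f i (y i)) := integrable_prod f
  have hK : IsCompact (Set.pi Set.univ (fun i => tsupport (f i))) := isCompact_univ_pi fun i => hc i
  have hu1 : Integrable (fun y : Fin n → V d => u y * ∏ i, f i (y i)) := by
    have hG : Continuous (fun x : Fin n → V d => ∏ i, f i (x i)) :=
      continuous_finsetProd _ fun i _ => (f i).continuous.comp (continuous_apply i)
    refine (hu.mul hG).integrable_of_hasCompactSupport ?_
    refine HasCompactSupport.intro hK fun y hy => ?_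
    by_contra hne
    exact hy fun i _ => prod_ne_zero_mem f (right_ne_zero_of_mul hne) i
  have e1 : (∫ y, u y * ∏ i, f i (y i)) - c = ∫ y, (u y - c) * ∏ i, f i (y i) := by
    have : c = ∫ y : Fin n → V d, c * ∏ i, f i (y i) := by
      rw [integral_const_mul, integral_prod_one f h1, mul_one]
    conv_lhs => rw [this]
    rw [← integral_sub hu1 (hI.const_mul c)]
    refine integral_congr_ae (Eventually.of_forall fun y => ?_)
    simp only
    ring
  rw [e1]
  calc |∫ y, (u y - c) * ∏ i, f i (y i)| ≤ ∫ y : Fin n → V d, ε * ∏ i, f i (y i) := by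
        rw [← Real.norm_eq_abs]
        refine norm_integral_le_of_norm_le (hI.const_mul ε) (Eventually.of_forall fun y => ?_)
        have hp : 0 ≤ ∏ i, f i (y i) := Finset.prod_nonneg fun i _ => h0 i _
        rw [Real.norm_eq_abs, abs_mul, abs_of_nonneg hp]
        by_cases hz : ∏ i, f i (y i) = 0
        · rw [hz]; simp
        · exact mul_le_mul_of_nonneg_right (hε y fun i => prod_ne_zero_mem f hz i) hp
    _ = ε := by rw [integral_const_mul, integral_prod_one f h1, mul_one]

/-- two continuous functions with the same averages near a point are equal there -/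
theorem eq_of_avg {d n : ℕ} (u v : (Fin n → V d) → ℝ) (hu : Continuous u) (hv : Continuous v)
    (y : Fin n → V d) (r : ℝ) (hr : 0 < r)
    (h : ∀ f : Fin n → S d, (∀ i, tsupport (f i) ⊆ Metric.ball (y i) r) →
      ∫ z, u z * ∏ i, f i (z i) = ∫ z, v z * ∏ i, f i (z i)) : u y = v y := by
  refine eq_of_forall_dist_le fun ε hε => ?_
  have h1 : ∀ᶠ z in 𝓝 y, |u z - u y| < ε / 2 := by
    have := Metric.continuousAt_iff'.1 (hu.continuousAt (x := y)) (ε / 2) (half_pos hε)
    simpa [Real.dist_eq] using this
  have h2 : ∀ᶠ z in 𝓝 y, |v z - v y| < ε / 2 := by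
    have := Metric.continuousAt_iff'.1 (hv.continuousAt (x := y)) (ε / 2) (half_pos hε)
    simpa [Real.dist_eq] using this
  obtain ⟨η, hη, hη2⟩ := Metric.eventually_nhds_iff.1 (h1.and h2)
  have hρ : 0 < min η r := lt_min hη hr
  choose f hf0 hfc hft hf1 using fun i => exists_bump (y i) hρ
  have hy : ∀ z : Fin n → V d, (∀ i, z i ∈ tsupport (f i)) → dist z y < η := by
    intro z hz
    rw [dist_pi_lt_iff hη]
    intro i
    exact (Metric.mem_ball.1 (hft i (hz i))).trans_le (min_le_left _ _)
  have e1 := avg_close u hu (u y) (ε / 2) f hf0 hfc hf1 fun z hz => (hη2 (hy z hz)).1.le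
  have e2 := avg_close v hv (v y) (ε / 2) f hf0 hfc hf1 fun z hz => (hη2 (hy z hz)).2.le
  rw [h f fun i => (hft i).trans (Metric.ball_subset_ball (min_le_right _ _))] at e1
  rw [Real.dist_eq]
  rw [abs_le] at e1 e2 ⊢
  constructor <;> linarith [e1.1, e1.2, e2.1, e2.2]

theorem pf_GLU : T_GLU := by
  intro d μ _ hM n hloc
  have hLAT : T_LAT := Pool.Agent.H43.DPC.LAT
  have hHOL : T_HOL := Pool.Agent.H43.DPC.HOL
  have hWSP : T_WSP := Pool.Agent.H70.DPC.WSP hLAT
  have hDc : IsClosed (Diag d n) := hWSP.isClosed_Diag d n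
  classical
  choose! r u hr hu hmu using hloc
  set s : (Fin n → V d) → ℝ := fun y => u y y with hs
  -- `s` is `u x` near `x`
  have key : ∀ x : Fin n → V d, x ∉ Diag d n → ∀ y : Fin n → V d, y ∉ Diag d n →
      dist y x < r x → s y = u x y := by
    intro x hx y hy hd
    refine eq_of_avg (u y) (u x) (hu y hy).continuous (hu x hx).continuous y
      (min (r y) (r x - dist y x)) (lt_min (hr y hy) (by linarith)) fun f hf => ?_
    rw [← hmu y hy f fun i => (hf i).trans (Metric.ball_subset_ball (min_le_left _ _)),
      ← hmu x hx f fun i => ?_]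
    refine (hf i).trans ?_
    refine Metric.ball_subset_ball' ?_
    have h1 : dist (y i) (x i) ≤ dist y x := dist_le_pi_dist y x i
    have h2 : min (r y) (r x - dist y x) ≤ r x - dist y x := min_le_right _ _
    linarith
  refine ⟨s, ?_, ?_⟩
  · intro x hx
    have hx' : x ∉ Diag d n := hx
    have h1 : s =ᶠ[𝓝[(Diag d n)ᶜ] x] u x := by
      have h2 : ∀ᶠ y in 𝓝 x, dist y x < r x := Metric.ball_mem_nhds x (hr x hx')
      filter_upwards [mem_nhdsWithin_of_mem_nhds h2, self_mem_nhdsWithin] with y h3 h4
      exact key x hx' y h4 h3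
    exact ((hu x hx').contDiffAt.contDiffWithinAt).congr_of_eventuallyEq h1 rfl
  · intro f hfc hfd
    -- integrability
    have hsc : ContinuousOn s (Diag d n)ᶜ := by
      intro x hx
      have hx' : x ∉ Diag d n := hx
      have h1 : s =ᶠ[𝓝[(Diag d n)ᶜ] x] u x := by
        have h2 : ∀ᶠ y in 𝓝 x, dist y x < r x := Metric.ball_mem_nhds x (hr x hx')
        filter_upwards [mem_nhdsWithin_of_mem_nhds h2, self_mem_nhdsWithin] with y h3 h4
        exact key x hx' y h4 h3
      exact ((hu x hx').continuous.continuousWithinAt).congr_of_eventuallyEq h1 rfl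
    -- the product of the supports
    set K : Set (Fin n → V d) := Set.pi Set.univ (fun i => tsupport (f i)) with hK
    have hKc : IsCompact K := isCompact_univ_pi fun i => hfc i
    have hKD : ∀ x ∈ K, x ∉ Diag d n := by
      rintro x hx ⟨i, j, hij, hxij⟩
      have h1 : x i ∈ tsupport (f i) := hx i (Set.mem_univ i)
      have h2 : x j ∈ tsupport (f j) := hx j (Set.mem_univ j)
      rw [← hxij] at h2
      exact Set.disjoint_left.mp (hfd i j hij) h1 h2
    obtain ⟨δ, hδ, hleb⟩ := lebesgue_number_lemma_of_metric (s := K)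
      (c := fun x : {x : Fin n → V d // x ∉ Diag d n} => Metric.ball x.1 (r x.1)) hKc
      (fun x => Metric.isOpen_ball) (fun x hx => Set.mem_iUnion.2
        ⟨⟨x, hKD x hx⟩, Metric.mem_ball_self (hr x (hKD x hx))⟩)
    -- fine cells
    obtain ⟨m, hm⟩ : ∃ m : ℕ, 2 * ((m : ℝ) + 1)⁻¹ * (Real.sqrt d) < δ := by
      have h1 : Tendsto (fun m : ℕ => 2 * ((m : ℝ) + 1)⁻¹ * (Real.sqrt d)) atTop
          (𝓝 (2 * 0 * Real.sqrt d)) := by
        refine Tendsto.mul_const _ (Tendsto.const_mul _ ?_)
        have := tendsto_one_div_add_atTop_nhds_zero_nat (𝕜 := ℝ)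
        simpa [one_div] using this
      have h2 : (2 * 0 * Real.sqrt d : ℝ) < δ := by simpa using hδ
      exact (h1.eventually (gt_mem_nhds h2)).exists
    set t : ℝ := ((m : ℝ) + 1)⁻¹ with htdef
    have ht : 0 < t := by positivity
    have hcell : ∀ (k : Fin d → ℤ) (x y : V d), x ∈ tsupport (cell t k) → y ∈ tsupport (cell t k) →
        dist x y < δ := by
      intro k x y hx hy
      have h1 : ∀ j, |x j - y j| ≤ 2 * t := by
        intro j
        have a1 := hLAT.tsupport d t ht k x hx j
        have a2 := hLAT.tsupport d t ht k y hy j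
        rw [abs_le] at a1 a2 ⊢
        constructor <;> linarith [a1.1, a1.2, a2.1, a2.2]
      refine lt_of_le_of_lt ?_ hm
      rw [EuclideanSpace.dist_eq]
      have h2 : ∑ i, dist (x i) (y i) ^ 2 ≤ (2 * t) ^ 2 * d := by
        calc ∑ i, dist (x i) (y i) ^ 2 ≤ ∑ _i : Fin d, (2 * t) ^ 2 := by
              refine Finset.sum_le_sum fun i _ => ?_
              rw [Real.dist_eq]
              exact pow_le_pow_left₀ (abs_nonneg _) (h1 i) 2
          _ = (2 * t) ^ 2 * d := by simp [mul_comm]
      calc Real.sqrt (∑ i, dist (x i) (y i) ^ 2) ≤ Real.sqrt ((2 * t) ^ 2 * d) :=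
            Real.sqrt_le_sqrt h2
        _ = 2 * t * Real.sqrt d := by
            rw [Real.sqrt_mul (by positivity), Real.sqrt_sq (by positivity)]
    obtain ⟨R, hR⟩ : ∃ R : ℕ, ∀ i x, f i x ≠ 0 → ∀ j, |x j| ≤ R := by
      have h1 : ∀ i, ∃ B : ℝ, ∀ x ∈ tsupport (f i), ‖x‖ ≤ B := fun i =>
        ((hfc i).isCompact.isBounded).exists_norm_le
      choose B hB using h1
      obtain ⟨R, hR⟩ := exists_nat_ge (∑ i, |B i|)
      refine ⟨R, fun i x hx j => ?_⟩
      calc |x j| ≤ ‖x‖ := by
            have := PiLp.norm_apply_le x j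
            simpa [Real.norm_eq_abs] using this
        _ ≤ B i := hB i x (subset_closure hx)
        _ ≤ |B i| := le_abs_self _
        _ ≤ ∑ i, |B i| := Finset.single_le_sum (f := fun i => |B i|) (fun j _ => abs_nonneg _)
            (Finset.mem_univ i)
        _ ≤ R := hR
    -- decomposition
    have hdec : ∀ i, f i = ∑ k ∈ box d (R * (m + 1)), cut t k (f i) := fun i =>
      (hLAT.sum_cut d m R (f i) (hR i)).symm
    obtain ⟨M, hMm⟩ := (hHOL d μ hM).2.1 n
    have hts : ∀ (k : Fin d → ℤ) (i : Fin n), tsupport (cut t k (f i)) ⊆ tsupport (f i) := by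
      intro k i
      refine closure_mono fun x hx => ?_
      rw [Function.mem_support] at hx ⊢
      rw [hLAT.cut_apply d t ht k (f i) x] at hx
      exact right_ne_zero_of_mul hx
    have hts' : ∀ (k : Fin d → ℤ) (i : Fin n), tsupport (cut t k (f i)) ⊆ tsupport (cell t k) :=
      fun k i => Pool.Agent.H14.DPC.tsupport_cut_subset hLAT ht k (f i)
    have hint : ∀ k : Fin n → Fin d → ℤ,
        Integrable (fun x : Fin n → V d => s x * ∏ i, cut t (k i) (f i) (x i)) := by
      intro k
      refine Pool.Agent.H14.DPC.integrable_of_disjoint hsc (fun i => cut t (k i) (f i))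
        (fun i => Pool.Agent.H14.DPC.compact_cut hLAT ht _ _ (hfc i)) fun i j hij => ?_
      exact (hfd i j hij).mono (hts _ _) (hts _ _)
    have hterm : ∀ k : Fin n → Fin d → ℤ, moment μ (fun i => cut t (k i) (f i)) =
        ∫ x in (Diag d n)ᶜ, s x * ∏ i, cut t (k i) (f i) (x i) := by
      intro k
      have hvan : ∀ x : Fin n → V d, ∏ i, cut t (k i) (f i) (x i) ≠ 0 →
          ∀ i, x i ∈ tsupport (cut t (k i) (f i)) := fun x hx i =>
        prod_ne_zero_mem (fun i => cut t (k i) (f i)) hx i
      by_cases hne : ∃ z : Fin n → V d, ∀ i, z i ∈ tsupport (cut t (k i) (f i))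
      · obtain ⟨z, hz⟩ := hne
        have hzK : z ∈ K := fun i _ => hts _ _ (hz i)
        obtain ⟨⟨x, hx⟩, hball⟩ := hleb z hzK
        have hin : ∀ y : Fin n → V d, (∀ i, y i ∈ tsupport (cut t (k i) (f i))) →
            dist y x < r x := by
          intro y hy
          refine Metric.mem_ball.1 (hball (Metric.mem_ball.2 ?_))
          rw [dist_pi_lt_iff hδ]
          exact fun i => hcell (k i) _ _ (hts' _ _ (hy i)) (hts' _ _ (hz i))
        rw [hmu x hx (fun i => cut t (k i) (f i)) fun i w hw => ?_]
        · rw [← setIntegral_eq_integral_of_forall_compl_eq_zero (s := (Diag d n)ᶜ)]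
          · refine setIntegral_congr_fun hDc.measurableSet.compl fun y hy => ?_
            by_cases h0 : ∏ i, cut t (k i) (f i) (y i) = 0
            · rw [h0]; simp
            · rw [key x hx y hy (hin y (hvan y h0))]
          · intro y hy
            by_contra hne
            have := hvan y (right_ne_zero_of_mul hne)
            exact hy (hKD y fun i _ => hts _ _ (this i))
        · have h3 := hin (Function.update z i w) fun j => by
            by_cases hj : j = i
            · subst hj; simpa using hw
            · rw [Function.update_of_ne hj]; exact hz j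
          have h4 := dist_le_pi_dist (Function.update z i w) x i
          rw [Function.update_self] at h4
          exact Metric.mem_ball.2 (h4.trans_lt h3)
      · push Not at hne
        have hzero : ∀ x : Fin n → V d, ∏ i, cut t (k i) (f i) (x i) = 0 := by
          intro x
          by_contra h0
          obtain ⟨i, hi⟩ := hne x
          exact hi (hvan x h0 i)
        have hM0 : moment μ (fun i => cut t (k i) (f i)) = 0 := by
          have h5 : ∃ i, cut t (k i) (f i) = 0 := by
            by_contra hall
            push Not at hall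
            have h6 : ∀ i, ∃ w, cut t (k i) (f i) w ≠ 0 := by
              intro i
              by_contra h7
              push Not at h7
              exact hall i (SchwartzMap.ext h7)
            choose w hw using h6
            obtain ⟨i, hi⟩ := hne w
            exact hi (subset_closure (hw i))
          obtain ⟨i, hi⟩ := h5
          rw [← hMm]
          exact M.map_coord_zero i hi
        rw [hM0]
        simp [hzero]
    calc moment μ f = M f := (hMm f).symm
      _ = M (fun i => ∑ k ∈ box d (R * (m + 1)), cut t k (f i)) := by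
          congr 1
          funext i
          exact hdec i
      _ = ∑ k ∈ Fintype.piFinset (fun _ : Fin n => box d (R * (m + 1))),
            M (fun i => cut t (k i) (f i)) :=
          M.map_sum_finset (fun i k => cut t k (f i)) _
      _ = ∑ k ∈ Fintype.piFinset (fun _ : Fin n => box d (R * (m + 1))),
            ∫ x in (Diag d n)ᶜ, s x * ∏ i, cut t (k i) (f i) (x i) := by
          refine Finset.sum_congr rfl fun k _ => ?_
          rw [hMm]
          exact hterm k
      _ = ∫ x in (Diag d n)ᶜ, ∑ k ∈ Fintype.piFinset (fun _ : Fin n => box d (R * (m + 1))),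
            s x * ∏ i, cut t (k i) (f i) (x i) :=
          (integral_finsetSum _ fun k _ => (hint k).integrableOn).symm
      _ = ∫ x in (Diag d n)ᶜ, s x * ∏ i, f i (x i) := by
          refine integral_congr_ae (Eventually.of_forall fun x => ?_)
          simp only
          rw [← Finset.mul_sum]
          congr 1
          rw [← Finset.prod_univ_sum (fun _ : Fin n => box d (R * (m + 1)))
            (fun i k => cut t k (f i) (x i))]
          refine Finset.prod_congr rfl fun i _ => ?_
          have := congrArg (fun g : S d => g (x i)) (hdec i)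
          simp only [sum_apply] at this
          exact this.symm

end Pool.Agent.H80.LD
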