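import Pool.Agent.H80.LD.Targets2
import Pool.Agent.H47.LD.RPM

/-!
# MP_47c37b: reflection positivity in all directions (ROT)
-/

set_option autoImplicit false

open MeasureTheory SchwartzMap Filter Topology
open scoped ENNReal ContDiff InnerProductSpace

namespace Pool.Agent.H80.LD

open Pool.Agent.H43.DPC (V S SD moment trans rot)
open Pool.Agent.H43.DPCS (RotInv)
open Pool.Agent.H47.LD (ml_rot Re_apply)

theorem pf_ROT : T_ROT := by
  intro d e e' μ _ he he' hR h0
  intro m c F hF
  set R : V d ≃ₗᵢ[ℝ] V d := (Submodule.span ℝ {e - e'})ᗮ.reflection with hRdef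
  have hRe : R e = e' := Submodule.reflection_sub (he.trans he'.symm)
  have hcomm : ∀ x, Re e' (R x) = R (Re e x) := by
    intro x
    rw [Re_apply e' he', Re_apply e he, map_sub, map_smul, hRe]
    have h3 : ⟪e', R x⟫_ℝ = ⟪e, x⟫_ℝ := by
      rw [← hRe]
      exact R.inner_map_map e x
    rw [h3]
  have h1 := h0 m c (fun j => (F j).map (rot R)) (by
    intro j f hf x hx
    obtain ⟨g, hg, rfl⟩ := List.mem_map.mp hf
    have h4 : g (R x) ≠ 0 := hx
    have h5 := hF j g hg (R x) h4
    rw [← hRe] at h5
    rwa [R.inner_map_map] at h5)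
  refine h1.trans (le_of_eq ?_)
  refine Finset.sum_congr rfl fun j _ => Finset.sum_congr rfl fun l _ => ?_
  have h6 : ((F j).map (rot (Re e')) ++ F l).map (rot R) =
      ((F j).map (rot R)).map (rot (Re e)) ++ (F l).map (rot R) := by
    rw [List.map_append, List.map_map, List.map_map]
    refine congrArg (· ++ (F l).map (rot R)) (List.map_congr_left fun f _ => ?_)
    ext x
    change f (Re e' (R x)) = f (R (Re e x))
    rw [hcomm]
  rw [← ml_rot μ hR R ((F j).map (rot (Re e')) ++ F l), h6]

end Pool.Agent.H80.LD
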