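import Pool.Agent.H80.LD.Targets2

/-!
# MP_47c37b: the power law is reflection positive (RPK)
-/

set_option autoImplicit false

open MeasureTheory Filter Topology
open scoped ENNReal InnerProductSpace

namespace Pool.Agent.H80.LD

open Pool.Agent.H43.DPC (V)

noncomputable section

variable {d : ℕ}

/-- the Gaussian integral in the momentum variable -/
theorem rpk_gauss (l : ℝ) (hl : 0 < l) (v : V d) :
    Integrable (fun k : V d => Real.exp (-(‖k‖ ^ 2 / (4 * l))) * Real.cos ⟪v, k⟫_ℝ) ∧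
    ∫ k : V d, Real.exp (-(‖k‖ ^ 2 / (4 * l))) * Real.cos ⟪v, k⟫_ℝ =
      (4 * Real.pi * l) ^ ((d : ℝ) / 2) * Real.exp (-(l * ‖v‖ ^ 2)) := by
  have hb : 0 < ((1 / (4 * l) : ℝ) : ℂ).re := by
    rw [Complex.ofReal_re]; positivity
  have h1 := GaussianFourier.integrable_cexp_neg_mul_sq_norm_add hb Complex.I v
  have h2 := GaussianFourier.integral_cexp_neg_mul_sq_norm_add hb Complex.I v
  have hre : ∀ k : V d, Real.exp (-(‖k‖ ^ 2 / (4 * l))) * Real.cos ⟪v, k⟫_ℝ =
      (Complex.exp (-((1 / (4 * l) : ℝ) : ℂ) * (‖k‖ : ℂ) ^ 2 +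
        Complex.I * ((⟪v, k⟫_ℝ : ℝ) : ℂ))).re := by
    intro k
    have key : ∀ a b : ℝ, Real.exp a * Real.cos b =
        (Complex.exp ((a : ℂ) + (b : ℂ) * Complex.I)).re := by
      intro a b
      rw [Complex.exp_re]
      simp
    have e1 : (-((1 / (4 * l) : ℝ) : ℂ) * (‖k‖ : ℂ) ^ 2 +
        Complex.I * ((⟪v, k⟫_ℝ : ℝ) : ℂ)) =
        ((-(‖k‖ ^ 2 / (4 * l)) : ℝ) : ℂ) + ((⟪v, k⟫_ℝ : ℝ) : ℂ) * Complex.I := by
      push_cast
      ring
    rw [e1, ← key]
  have h1' : Integrable (fun k : V d => Real.exp (-(‖k‖ ^ 2 / (4 * l))) *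
      Real.cos ⟪v, k⟫_ℝ) := by
    refine h1.re.congr (Eventually.of_forall fun k => ?_)
    exact (hre k).symm
  refine ⟨h1', ?_⟩
  have h3 := integral_re h1
  simp only [RCLike.re_to_complex] at h3
  calc ∫ k : V d, Real.exp (-(‖k‖ ^ 2 / (4 * l))) * Real.cos ⟪v, k⟫_ℝ
      = ∫ k : V d, (Complex.exp (-((1 / (4 * l) : ℝ) : ℂ) * (‖k‖ : ℂ) ^ 2 +
        Complex.I * ((⟪v, k⟫_ℝ : ℝ) : ℂ))).re :=
        integral_congr_ae (Eventually.of_forall hre)
    _ = (∫ k : V d, Complex.exp (-((1 / (4 * l) : ℝ) : ℂ) * (‖k‖ : ℂ) ^ 2 +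
        Complex.I * ((⟪v, k⟫_ℝ : ℝ) : ℂ))).re := h3
    _ = _ := by
        rw [h2, finrank_euclideanSpace, Fintype.card_fin]
        have e2 : (Real.pi : ℂ) / ((1 / (4 * l) : ℝ) : ℂ) = ((4 * Real.pi * l : ℝ) : ℂ) := by
          push_cast
          field_simp
        have e3 : (Complex.I ^ 2 * (‖v‖ : ℂ) ^ 2 / (4 * ((1 / (4 * l) : ℝ) : ℂ))) =
            ((-(l * ‖v‖ ^ 2) : ℝ) : ℂ) := by
          rw [Complex.I_sq]
          push_cast
          field_simp
        have e4 : ((d : ℂ) / 2) = (((d : ℝ) / 2 : ℝ) : ℂ) := by push_cast; ring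
        rw [e2, e3, e4, ← Complex.ofReal_cpow (by positivity), ← Complex.ofReal_exp,
          ← Complex.ofReal_mul, Complex.ofReal_re]

/-- the constant of the mass integral -/
def rpkc (g : ℝ) : ℝ := 4 ^ (g + 1 / 2) * (1 / 2) * Real.Gamma (g + 1 / 2)

theorem rpkc_pos {g : ℝ} (hg : 0 ≤ g) : 0 < rpkc g := by
  unfold rpkc
  have := Real.Gamma_pos_of_pos (by linarith : 0 < g + 1 / 2)
  positivity

/-- the mass integral -/
theorem rpk_mass (l : ℝ) (hl : 0 < l) (g : ℝ) (hg : 0 ≤ g) :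
    IntegrableOn (fun M : ℝ => M ^ (2 * g) * Real.exp (-(M ^ 2 / (4 * l)))) (Set.Ioi 0) ∧
    ∫ M in Set.Ioi (0 : ℝ), M ^ (2 * g) * Real.exp (-(M ^ 2 / (4 * l))) =
      rpkc g * l ^ (g + 1 / 2) := by
  have hb : 0 < 1 / (4 * l) := by positivity
  have e : ∀ M : ℝ, M ^ (2 * g) * Real.exp (-(M ^ 2 / (4 * l))) =
      M ^ (2 * g) * Real.exp (-(1 / (4 * l)) * M ^ (2 : ℝ)) := by
    intro M
    rw [Real.rpow_two]
    congr 2
    ring
  constructor
  · have := integrableOn_rpow_mul_exp_neg_mul_rpow (p := 2) (s := 2 * g) (b := 1 / (4 * l))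
      (by linarith) (by norm_num) hb
    exact this.congr_fun (fun M _ => (e M).symm) measurableSet_Ioi
  · have := integral_rpow_mul_exp_neg_mul_rpow (p := 2) (q := 2 * g) (b := 1 / (4 * l))
      (by norm_num) (by linarith) hb
    rw [setIntegral_congr_fun measurableSet_Ioi (fun M _ => e M), this]
    have e1 : (2 * g + 1) / 2 = g + 1 / 2 := by ring
    have e2 : -(2 * g + 1) / 2 = -(g + 1 / 2) := by ring
    rw [e1, e2, rpkc, one_div (4 * l), Real.inv_rpow (by positivity),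
      Real.rpow_neg (by positivity), inv_inv, Real.mul_rpow (by norm_num) hl.le]
    ring

/-- the integrand -/
def FF (g R : ℝ) (v : V d) (z : V d × ℝ) (l : ℝ) : ℝ :=
  z.2 ^ (2 * g) * (l ^ (-(3 / 2) : ℝ) *
    Real.exp (-(l * R ^ 2) - (‖z.1‖ ^ 2 + z.2 ^ 2) / (4 * l))) * Real.cos ⟪v, z.1⟫_ℝ

/-- the measure of the momentum and the mass -/
def rho (d : ℕ) : Measure (V d × ℝ) := (volume : Measure (V d)).prod (volume.restrict (Set.Ioi 0))

instance : SFinite (rho d) := by unfold rho; infer_instance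

theorem FF_meas (g R : ℝ) (v : V d) : Measurable (fun p : (V d × ℝ) × ℝ => FF g R v p.1 p.2) := by
  unfold FF
  have h1 : Measurable (fun p : (V d × ℝ) × ℝ => p.1.2 ^ (2 * g)) :=
    (measurable_snd.comp measurable_fst).pow_const _
  have h2 : Measurable (fun p : (V d × ℝ) × ℝ => p.2 ^ (-(3 / 2) : ℝ)) :=
    measurable_snd.pow_const _
  have h3 : Measurable (fun p : (V d × ℝ) × ℝ => Real.exp (-(p.2 * R ^ 2) -
      (‖p.1.1‖ ^ 2 + p.1.2 ^ 2) / (4 * p.2))) := by fun_prop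
  have h4 : Measurable (fun p : (V d × ℝ) × ℝ => Real.cos ⟪v, p.1.1⟫_ℝ) := by fun_prop
  exact (h1.mul (h2.mul h3)).mul h4

theorem FF_eq (g R : ℝ) (v : V d) (l : ℝ) (z : V d × ℝ) :
    FF g R v z l = (l ^ (-(3 / 2) : ℝ) * Real.exp (-(l * R ^ 2))) *
      ((Real.exp (-(‖z.1‖ ^ 2 / (4 * l))) * Real.cos ⟪v, z.1⟫_ℝ) *
        (z.2 ^ (2 * g) * Real.exp (-(z.2 ^ 2 / (4 * l))))) := by
  unfold FF
  have e : -(l * R ^ 2) - (‖z.1‖ ^ 2 + z.2 ^ 2) / (4 * l) =
      -(l * R ^ 2) + (-(‖z.1‖ ^ 2 / (4 * l)) + -(z.2 ^ 2 / (4 * l))) := by ring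
  rw [e, Real.exp_add, Real.exp_add]
  ring

theorem FF_int (g R : ℝ) (hg : 0 ≤ g) (v : V d) (l : ℝ) (hl : 0 < l) :
    Integrable (fun z => FF g R v z l) (rho d) ∧
    ∫ z, FF g R v z l ∂(rho d) = (rpkc g * (4 * Real.pi) ^ ((d : ℝ) / 2)) *
      (l ^ (g + (d : ℝ) / 2 - 1) * Real.exp (-((R ^ 2 + ‖v‖ ^ 2) * l))) := by
  obtain ⟨h1, h2⟩ := rpk_gauss l hl v
  obtain ⟨h3, h4⟩ := rpk_mass l hl g hg
  have hI := (h1.mul_prod h3).const_mul (l ^ (-(3 / 2) : ℝ) * Real.exp (-(l * R ^ 2)))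
  constructor
  · refine hI.congr (Eventually.of_forall fun z => ?_)
    exact (FF_eq g R v l z).symm
  · rw [integral_congr_ae (Eventually.of_forall (FF_eq g R v l)), integral_const_mul, rho,
      integral_prod_mul (fun k : V d => Real.exp (-(‖k‖ ^ 2 / (4 * l))) * Real.cos ⟪v, k⟫_ℝ)
        (fun M : ℝ => M ^ (2 * g) * Real.exp (-(M ^ 2 / (4 * l)))), h2, h4,
      Real.mul_rpow (by positivity) hl.le]
    have e1 : l ^ (g + (d : ℝ) / 2 - 1) = l ^ (-(3 / 2) : ℝ) * l ^ ((d : ℝ) / 2) *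
        l ^ (g + 1 / 2) := by
      rw [← Real.rpow_add hl, ← Real.rpow_add hl]
      congr 1
      ring
    have e2 : Real.exp (-((R ^ 2 + ‖v‖ ^ 2) * l)) = Real.exp (-(l * R ^ 2)) *
        Real.exp (-(l * ‖v‖ ^ 2)) := by
      rw [← Real.exp_add]
      congr 1
      ring
    rw [e1, e2]
    ring

theorem pow_exp_integrable (s u : ℝ) (hs : 0 < s) (hu : 0 < u) :
    IntegrableOn (fun l : ℝ => l ^ (s - 1) * Real.exp (-(u * l))) (Set.Ioi 0) := by
  have := integrableOn_rpow_mul_exp_neg_mul_rpow (p := 1) (s := s - 1) (b := u)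
    (by linarith) one_pos hu
  refine this.congr_fun (fun l _ => ?_) measurableSet_Ioi
  simp only [Real.rpow_one, neg_mul]

theorem FF_prod (g R : ℝ) (hg : 0 ≤ g) (hR : 0 < R) (hs : 0 < g + (d : ℝ) / 2) (v : V d) :
    Integrable (fun p : (V d × ℝ) × ℝ => FF g R v p.1 p.2)
      ((rho d).prod (volume.restrict (Set.Ioi 0))) := by
  have h0 : Integrable (fun p : (V d × ℝ) × ℝ => FF g R (0 : V d) p.1 p.2)
      ((rho d).prod (volume.restrict (Set.Ioi 0))) := by
    rw [integrable_prod_iff' (FF_meas g R (0 : V d)).aestronglyMeasurable]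
    constructor
    · refine (ae_restrict_iff' measurableSet_Ioi).2 (Eventually.of_forall fun l hl => ?_)
      exact (FF_int g R hg 0 l hl).1
    · have h1 : IntegrableOn (fun l : ℝ => (rpkc g * (4 * Real.pi) ^ ((d : ℝ) / 2)) *
          (l ^ (g + (d : ℝ) / 2 - 1) * Real.exp (-((R ^ 2 + ‖(0 : V d)‖ ^ 2) * l))))
          (Set.Ioi 0) :=
        (pow_exp_integrable _ _ hs (by positivity)).const_mul _
      refine h1.congr_fun (fun l hl => ?_) measurableSet_Ioi
      simp only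
      rw [← (FF_int g R hg (0 : V d) l hl).2]
      refine integral_congr_ae ?_
      have h2 : ∀ᵐ z ∂(rho d), 0 < z.2 := by
        unfold rho
        refine (Measure.ae_prod_mem_iff_ae_ae_mem ?_).2 ?_
        · exact measurableSet_lt measurable_const measurable_snd
        · exact Eventually.of_forall fun k => ae_restrict_mem measurableSet_Ioi
      filter_upwards [h2] with z hz
      have hl' : (0 : ℝ) < l := hl
      rw [Real.norm_eq_abs, abs_of_nonneg]
      unfold FF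
      rw [inner_zero_left, Real.cos_zero]
      positivity
  refine h0.mono' (FF_meas g R v).aestronglyMeasurable ?_
  have h3 : ∀ᵐ p ∂((rho d).prod (volume.restrict (Set.Ioi (0 : ℝ)))), 0 < p.1.2 ∧ 0 < p.2 := by
    refine (Measure.ae_prod_mem_iff_ae_ae_mem ?_).2 ?_
    · exact (measurableSet_lt measurable_const (measurable_snd.comp measurable_fst)).inter
        (measurableSet_lt measurable_const measurable_snd)
    · have h2 : ∀ᵐ z ∂(rho d), 0 < z.2 := by
        unfold rho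
        refine (Measure.ae_prod_mem_iff_ae_ae_mem ?_).2 ?_
        · exact measurableSet_lt measurable_const measurable_snd
        · exact Eventually.of_forall fun k => ae_restrict_mem measurableSet_Ioi
      filter_upwards [h2] with z hz
      refine (ae_restrict_iff' measurableSet_Ioi).2 (Eventually.of_forall fun l hl => ?_)
      exact ⟨hz, hl⟩
  filter_upwards [h3] with p hp
  obtain ⟨hp1, hp2⟩ := hp
  unfold FF
  rw [inner_zero_left, Real.cos_zero, mul_one, Real.norm_eq_abs, abs_mul]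
  have h4 : 0 ≤ p.1.2 ^ (2 * g) * (p.2 ^ (-(3 / 2) : ℝ) *
      Real.exp (-(p.2 * R ^ 2) - (‖p.1.1‖ ^ 2 + p.1.2 ^ 2) / (4 * p.2))) := by positivity
  rw [abs_of_nonneg h4]
  exact mul_le_of_le_one_right h4 (Real.abs_cos_le_one _)

/-- the constant in front of the power law -/
def KK (d : ℕ) (g : ℝ) : ℝ :=
  rpkc g * (4 * Real.pi) ^ ((d : ℝ) / 2) * Real.Gamma (g + (d : ℝ) / 2)

theorem KK_pos (g : ℝ) (hg : 0 ≤ g) (hs : 0 < g + (d : ℝ) / 2) : 0 < KK d g := by
  unfold KK
  have h1 := rpkc_pos hg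
  have h2 := Real.Gamma_pos_of_pos hs
  positivity

theorem FF_total (g R : ℝ) (hg : 0 ≤ g) (hR : 0 < R) (hs : 0 < g + (d : ℝ) / 2) (v : V d) :
    ∫ z, (∫ l in Set.Ioi (0 : ℝ), FF g R v z l) ∂(rho d) =
      KK d g * (R ^ 2 + ‖v‖ ^ 2) ^ (-(g + (d : ℝ) / 2)) := by
  have hu : 0 < R ^ 2 + ‖v‖ ^ 2 := by positivity
  rw [integral_integral_swap (FF_prod g R hg hR hs v)]
  rw [setIntegral_congr_fun measurableSet_Ioi (fun l hl => (FF_int g R hg v l hl).2),
    integral_const_mul, Real.integral_rpow_mul_exp_neg_mul_Ioi hs hu, KK, one_div,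
    Real.inv_rpow hu.le, Real.rpow_neg hu.le]
  ring

theorem pf_RPK (hGLS : T_GLS) : T_RPK := by
  intro d e he s hds n x c hx
  set g : ℝ := s - (d : ℝ) / 2 with hgdef
  have hg : 0 ≤ g := by rw [hgdef]; linarith
  rcases Nat.eq_zero_or_pos n with hn | hn
  · subst hn; simp
  have hd : 0 < (d : ℝ) := by
    rcases Nat.eq_zero_or_pos d with h0 | h0
    · subst h0
      have : e = 0 := Subsingleton.elim _ _
      rw [this, norm_zero] at he
      norm_num at he
    · exact_mod_cast h0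
  have hs : 0 < g + (d : ℝ) / 2 := by linarith
  set r : Fin n → ℝ := fun i => ⟪e, x i⟫_ℝ with hr
  set v : Fin n → V d := fun i => x i - r i • e with hv
  have hee : ⟪e, e⟫_ℝ = 1 := by rw [real_inner_self_eq_norm_sq, he]; norm_num
  have hev : ∀ i, ⟪e, v i⟫_ℝ = 0 := by
    intro i
    rw [hv]
    simp only
    rw [inner_sub_right, inner_smul_right, hee, hr]
    ring
  have hRe : ∀ y : V d, Re e y = y - (2 * ⟪e, y⟫_ℝ) • e := by
    intro y
    unfold Re
    rw [Submodule.reflection_orthogonal_apply, Submodule.reflection_singleton_apply, he]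
    simp only [RCLike.ofReal_real_eq_id, id_eq, one_pow, div_one]
    rw [neg_sub, two_mul, add_smul, ← two_smul ℝ, smul_smul]
    module
  have hnorm : ∀ i j, ‖Re e (x i) - x j‖ ^ 2 = (r i + r j) ^ 2 + ‖v i - v j‖ ^ 2 := by
    intro i j
    have e1 : Re e (x i) - x j = (v i - v j) - (r i + r j) • e := by
      rw [hRe, hv]
      simp only [hr]
      module
    rw [e1, norm_sub_sq_real, inner_smul_right, inner_sub_left, real_inner_comm, hev i,
      real_inner_comm, hev j, norm_smul, he, Real.norm_eq_abs, mul_one, sq_abs]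
    ring
  have hpos : ∀ i j, 0 < r i + r j := fun i j => add_pos (hx i) (hx j)
  have hterm : ∀ i j, ‖Re e (x i) - x j‖ ^ (-(2 * s)) =
      ((r i + r j) ^ 2 + ‖v i - v j‖ ^ 2) ^ (-(g + (d : ℝ) / 2)) := by
    intro i j
    rw [← hnorm i j, ← Real.rpow_natCast, ← Real.rpow_mul (norm_nonneg _)]
    congr 1
    rw [hgdef]
    push_cast
    ring
  have hKK := KK_pos (d := d) g hg hs
  have htot : KK d g * ∑ i, ∑ j, c i * c j * ‖Re e (x i) - x j‖ ^ (-(2 * s)) =
      ∫ z, (∑ i, ∑ j, c i * c j * ∫ l in Set.Ioi (0 : ℝ), FF g (r i + r j) (v i - v j) z l)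
        ∂(rho d) := by
    rw [integral_finsetSum _ fun i _ => integrable_finsetSum _ fun j _ =>
      ((FF_prod g (r i + r j) hg (hpos i j) hs (v i - v j)).integral_prod_left.const_mul _),
      Finset.mul_sum]
    refine Finset.sum_congr rfl fun i _ => ?_
    rw [integral_finsetSum _ fun j _ =>
      ((FF_prod g (r i + r j) hg (hpos i j) hs (v i - v j)).integral_prod_left.const_mul _),
      Finset.mul_sum]
    refine Finset.sum_congr rfl fun j _ => ?_
    rw [integral_const_mul, FF_total g (r i + r j) hg (hpos i j) hs (v i - v j), hterm i j]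
    ring
  have hnn : 0 ≤ KK d g * ∑ i, ∑ j, c i * c j * ‖Re e (x i) - x j‖ ^ (-(2 * s)) := by
    rw [htot]
    refine integral_nonneg_of_ae ?_
    have h2 : ∀ᵐ z ∂(rho d), 0 < z.2 := by
      unfold rho
      refine (Measure.ae_prod_mem_iff_ae_ae_mem ?_).2 ?_
      · exact measurableSet_lt measurable_const measurable_snd
      · exact Eventually.of_forall fun k => ae_restrict_mem measurableSet_Ioi
    filter_upwards [h2] with z hz
    set w : ℝ := Real.sqrt (‖z.1‖ ^ 2 + z.2 ^ 2) with hw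
    have hwpos : 0 < w := Real.sqrt_pos.2 (by positivity)
    have hw2 : w ^ 2 = ‖z.1‖ ^ 2 + z.2 ^ 2 := Real.sq_sqrt (by positivity)
    have hin : ∀ i j, ∫ l in Set.Ioi (0 : ℝ), FF g (r i + r j) (v i - v j) z l =
        z.2 ^ (2 * g) * (2 * Real.sqrt Real.pi / w) * ((Real.exp (-(r i * w)) *
          Real.exp (-(r j * w))) * (Real.cos ⟪v i, z.1⟫_ℝ * Real.cos ⟪v j, z.1⟫_ℝ +
            Real.sin ⟪v i, z.1⟫_ℝ * Real.sin ⟪v j, z.1⟫_ℝ)) := by
      intro i j
      unfold FF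
      rw [integral_mul_const, integral_const_mul, ← hw2, (hGLS (r i + r j) w (hpos i j) hwpos).2,
        inner_sub_left, Real.cos_sub]
      have e1 : Real.exp (-((r i + r j) * w)) = Real.exp (-(r i * w)) * Real.exp (-(r j * w)) := by
        rw [← Real.exp_add]
        congr 1
        ring
      rw [e1]
      ring
    have hsum : ∑ i, ∑ j, c i * c j *
        ∫ l in Set.Ioi (0 : ℝ), FF g (r i + r j) (v i - v j) z l =
        z.2 ^ (2 * g) * (2 * Real.sqrt Real.pi / w) *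
          ((∑ i, c i * Real.exp (-(r i * w)) * Real.cos ⟪v i, z.1⟫_ℝ) ^ 2 +
            (∑ i, c i * Real.exp (-(r i * w)) * Real.sin ⟪v i, z.1⟫_ℝ) ^ 2) := by
      rw [sq, sq, Finset.sum_mul_sum, Finset.sum_mul_sum, ← Finset.sum_add_distrib,
        Finset.mul_sum]
      refine Finset.sum_congr rfl fun i _ => ?_
      rw [← Finset.sum_add_distrib, Finset.mul_sum]
      refine Finset.sum_congr rfl fun j _ => ?_
      rw [hin i j]
      ring
    simp only [Pi.zero_apply]
    rw [hsum]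
    positivity
  exact nonneg_of_mul_nonneg_right hnn hKK

end

end Pool.Agent.H80.LD
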