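import Pool.Agent.H80.LD.MAIN2
import Pool.Agent.H80.LD.GLU
import Pool.Agent.H80.LD.CLO
import Pool.Agent.H80.LD.FIN
import Pool.Agent.H80.LD.GLS
import Pool.Agent.H80.LD.LRS
import Pool.Agent.H80.LD.ROT
import Pool.Agent.H80.LD.RPK
import Pool.Agent.H1.LD.LEB
import Pool.Agent.H1.LD.ST4
import Pool.Agent.H5.LD.CVG
import Pool.Agent.H7.LD.RPD
import Pool.Agent.H11.LDP.FRP
import Pool.Agent.H12.LD.DIR
import Pool.Agent.H18.LD.FDC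
import Pool.Agent.H18.LD.LRG
import Pool.Agent.H18.LD.REG
import Pool.Agent.H19.LD.MCV
import Pool.Agent.H19.LD.PTB
import Pool.Agent.H20.LD.SMJ
import Pool.Agent.H35.LDP.ECF
import Pool.Agent.H42.LD.LAW
import Pool.Agent.H42.LD.SSP
import Pool.Agent.H47.LD.POL
import Pool.Agent.H47.LD.PRB
import Pool.Agent.H59.LD.RPF
import Pool.Agent.H66.LD.KTS
import Pool.Agent.H66.LD.WMC
import Pool.Agent.H67.LD.EXQ
import Pool.Agent.H67.LD.GAF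
import Pool.Agent.H67.LD.MAJ
import Pool.Agent.H70.LD.LOC
import Pool.Agent.H74.LD.DIF
import Pool.Agent.H75.LD.TWP
import Pool.Agent.H79.LD.LOB
import Pool.Agent.H82.LD.SSC
import Pool.Agent.H85.LD.DCM
import Pool.Agent.H94.LD.GKS
import Pool.Agent.H95.LD.CYL
import Pool.Agent.H95.LD.MOL
import Pool.Agent.H96.LD.SGP

/-!
# MP_47c37b: all rows together
-/

set_option autoImplicit false

namespace Pool.Agent.H80.LD

theorem final2 : T_MAIN2 := by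
  have hLAW : T_LAW := Pool.Agent.H42.LD.pf_LAW
  have hSSP : T_SSP := Pool.Agent.H42.LD.pf_SSP
  have hEXQ : T_EXQ := Pool.Agent.H67.LD.pf_EXQ
  have hGKS : T_GKS := Pool.Agent.H94.LD.pf_GKS hLAW hEXQ
  have hFRP : T_FRP := Pool.Agent.H11.LDP.pf_FRP hLAW hSSP hEXQ
  have hLEB : T_LEB := Pool.Agent.H1.LD.pf_LEB hLAW hFRP
  have hST4 : T_ST4 := Pool.Agent.H1.LD.pf_ST4 hLAW hLEB hGKS
  have hCVG : T_CVG := Pool.Agent.H5.LD.pf_CVG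
  have hPRB : T_PRB := Pool.Agent.H47.LD.pf_PRB
  have hGAF : T_GAF := Pool.Agent.H67.LD.pf_GAF hLAW hGKS hST4 hCVG
  have hRPF : T_RPF := Pool.Agent.H59.LD.pf_RPF hLAW
  have hMAJ : T_MAJ := Pool.Agent.H67.LD.pf_MAJ
  have hKTS : T_KTS := Pool.Agent.H66.LD.pf_KTS
  have hWMC : T_WMC := Pool.Agent.H66.LD.pf_WMC
  have hPOL : T_POL := Pool.Agent.H47.LD.pf_POL
  have hFIN : T_FIN := pf_FIN hLAW hGAF hRPF
  have hCLO : T_CLO := pf_CLO hMAJ hKTS hWMC hPOL hPRB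
  have hEVB : T_EVB := pf_EVB hMAJ hPRB
  have hROT : T_ROT := pf_ROT
  have hLRS : T_LRS := pf_LRS (pf_RPK pf_GLS)
  have hCYL : T_CYL := Pool.Agent.H95.LD.pf_CYL Pool.Agent.H82.LD.pf_SSC
  have hDCM : T_DCM := Pool.Agent.H85.LD.pf_DCM (Pool.Agent.H35.LDP.pf_ECF hCYL)
  have hRPD : T_RPD := Pool.Agent.H7.LD.pf_RPD Pool.Agent.H96.LD.pf_SGP
  have hTWP : T_TWP := Pool.Agent.H75.LD.pf_TWP
  have hLOB : T_LOB := Pool.Agent.H79.LD.pf_LOB Pool.Agent.H20.LD.pf_SMJ hPRB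
  have hDIF : T_DIF := Pool.Agent.H74.LD.pf_DIF hRPD hLOB
  have hREG : T_REG := Pool.Agent.H18.LD.pf_REG Pool.Agent.H18.LD.pf_FDC Pool.Agent.H18.LD.pf_LRG
  have hLOC : T_LOC := Pool.Agent.H70.LD.pf_LOC Pool.Agent.H95.LD.pf_MOL Pool.Agent.H19.LD.pf_MCV
    Pool.Agent.H12.LD.pf_DIR hREG
  exact pf_MAIN2 hFIN hCLO hEVB hROT hLRS hDCM hTWP hLOB hDIF hLOC pf_GLU
    (Pool.Agent.H19.LD.pf_PTB hPRB)

end Pool.Agent.H80.LD
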