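import Pool.Agent.H80.LD.Stmt

/-!
# MP_47c37b: scaling limits of ferromagnetic reflection positive systems: auxiliary definitions
-/

set_option autoImplicit false

open MeasureTheory SchwartzMap Filter Topology
open scoped ENNReal ContDiff InnerProductSpace

namespace Pool.Agent.H80.LD

open Pool.Agent.H43.DPC (V S SD moment trans rot IsMAO Diag)

noncomputable section

/-! ### four replicas -/

/-- the orthogonal change of the four replicas -/
def al (y : Fin 4 → ℝ) : ℝ := (y 0 + y 1 + y 2 + y 3) / 2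

/-- the orthogonal change of the four replicas -/
def be (y : Fin 4 → ℝ) : ℝ := (y 0 + y 1 - y 2 - y 3) / 2

/-- the orthogonal change of the four replicas -/
def ga (y : Fin 4 → ℝ) : ℝ := (y 0 - y 1 + y 2 - y 3) / 2

/-- the orthogonal change of the four replicas, with the opposite sign -/
def de (y : Fin 4 → ℝ) : ℝ := -(y 0 - y 1 - y 2 + y 3) / 2

/-- convolution of set functions -/
def cv {n : ℕ} (a b : Finset (Fin n) → ℝ) (T : Finset (Fin n)) : ℝ :=
  ∑ U ∈ T.powerset, a U * b (T \ U)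

/-! ### moments of lists of test functions -/

variable {d : ℕ}

/-- moments of a list of test functions -/
def ml (μ : Measure (SD d)) (l : List (S d)) : ℝ := ∫ T : SD d, (l.map (fun f => T f)).prod ∂μ

/-- moments of a list of test functions, finite system -/
def mf {e : V d} (A : Sys d e) (l : List (S d)) : ℝ :=
  ∫ φ, (l.map (fun f => A.fld f φ)).prod ∂A.law

/-- reflection positivity -/
def RPos (μ : Measure (SD d)) (e : V d) : Prop :=
  ∀ (m : ℕ) (c : Fin m → ℝ) (F : Fin m → List (S d)),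
    (∀ j, ∀ f ∈ F j, ∀ x, f x ≠ 0 → 0 < ⟪e, x⟫_ℝ) →
    0 ≤ ∑ j, ∑ l, c j * c l * ml μ ((F j).map (rot (Re e)) ++ F l)

/-- the field of the systems `A k` converges in law to `μ` -/
def Lim {e : V d} (A : ℕ → Sys d e) (μ : Measure (SD d)) : Prop :=
  ∀ f : S d,
    Tendsto (fun k => ∫ φ, Complex.exp (Complex.I * ((A k).fld f φ : ℂ)) ∂(A k).law) atTop
      (𝓝 (∫ T : SD d, Complex.exp (Complex.I * ((T f : ℝ) : ℂ)) ∂μ))

/-- the properties of the limit which come from the correlation inequalities -/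
structure Dom (μ : Measure (SD d)) : Prop where
  mao : IsMAO μ
  pos : ∀ (n : ℕ) (f : Fin n → S d), (∀ i x, 0 ≤ f i x) → 0 ≤ moment μ f
  maj : ∀ (n : ℕ) (f h : Fin n → S d), (∀ i x, |f i x| ≤ h i x) → |moment μ f| ≤ moment μ h
  gau : ∀ (n : ℕ) (h : Fin n → S d), (∀ i x, 0 ≤ h i x) →
    moment μ h ≤ pair (fun i j => moment μ ![h i, h j]) Finset.univ
  odd : ∀ (n : ℕ), Odd n → ∀ f : Fin n → S d, moment μ f = 0

/-- the two point function is `c |x - y|^(-2a)` off the diagonal -/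
def Two (μ : Measure (SD d)) (a c : ℝ) : Prop :=
  0 ≤ c ∧ ∀ f g : S d, HasCompactSupport f → HasCompactSupport g →
    Disjoint (tsupport f) (tsupport g) →
    moment μ ![f, g] = ∫ x, ∫ y, c * ‖x - y‖ ^ (-(2 * a)) * (f x * g y)

/-- the supports are separated -/
def SepS (δ : ℝ) {n : ℕ} (f : Fin n → S d) : Prop :=
  (∀ i, HasCompactSupport (f i)) ∧
    ∀ i j, i ≠ j → ∀ x ∈ tsupport (f i), ∀ y ∈ tsupport (f j), δ ≤ ‖x - y‖

/-- local boundedness of the moments off the diagonal, uniformly -/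
def Lob (μ : Measure (SD d)) : Prop :=
  ∀ (n : ℕ) (δ : ℝ), 0 < δ → ∃ K : ℝ, 0 ≤ K ∧ ∀ f : Fin n → S d, SepS δ f →
    |moment μ f| ≤ K * ∏ i, ∫ x, |f i x|

/-- differences of the moments -/
def Dif (μ : Measure (SD d)) : Prop :=
  ∀ (n m : ℕ) (δ : ℝ), 0 < δ → ∃ K : ℝ, 0 ≤ K ∧ ∀ (e : V d) (c : ℝ) (R : Finset (Fin n))
    (f : Fin n → S d), ‖e‖ = 1 → SepS δ f →
    (∀ i ∉ R, ∀ x ∈ tsupport (f i), ⟪e, x⟫_ℝ ≤ c - δ) →
    (∀ i ∈ R, ∀ x ∈ tsupport (f i), c + δ ≤ ⟪e, x⟫_ℝ) →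
    ∀ h : ℝ, 0 < h → 2 * (m * h) ≤ δ →
      |∑ i ∈ Finset.range (m + 1), (-1) ^ i * (m.choose i : ℝ) *
        moment μ (fun j => if j ∈ R then trans (((i : ℝ) * h) • e) (f j) else f j)| ≤
      K * h ^ m * ∏ i, ∫ x, |f i x|

/-- the `m`-th difference of `s` in the direction `v` with step `h` -/
def dm {E : Type} [AddCommGroup E] [Module ℝ E] (m : ℕ) (h : ℝ) (v : E) (s : E → ℝ) (x : E) : ℝ :=
  ∑ i ∈ Finset.range (m + 1), (-1) ^ i * (m.choose i : ℝ) * s (x + ((i : ℝ) * h) • v)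

/-- near `x` the moments are given by a smooth function -/
def LocP (μ : Measure (SD d)) (n : ℕ) (x : Fin n → V d) : Prop :=
  ∃ (r : ℝ) (u : (Fin n → V d) → ℝ), 0 < r ∧ ContDiff ℝ ∞ u ∧
    ∀ f : Fin n → S d, (∀ i, tsupport (f i) ⊆ Metric.ball (x i) r) →
      moment μ f = ∫ y, u y * ∏ i, f i (y i)

end

end Pool.Agent.H80.LD
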