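import Pool.Agent.H80.LD.Targets

/-!
# MP_47c37b: assembly of the rows
-/

set_option autoImplicit false

open MeasureTheory SchwartzMap Filter Topology
open scoped ENNReal ContDiff InnerProductSpace

namespace Pool.Agent.H80.LD

open Pool.Agent.H43.DPC (V S SD moment trans rot IsMAO IsDC Diag NegPartLocInt)
open Pool.Agent.H43.DPCS (TransInv RotInv SelfSim Cond1 Cond123 IsDPC)

theorem ml_replicate {d : ℕ} (μ : Measure (SD d)) (p : ℕ) (f : S d) :
    ml μ (List.replicate p f) = ∫ T : SD d, (T f) ^ p ∂μ := by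
  unfold ml
  simp [List.map_replicate, List.prod_replicate]

theorem isClosed_Diag (d n : ℕ) : IsClosed (Diag d n) := by
  have : Diag d n = ⋃ i : Fin n, ⋃ j : Fin n, {x : Fin n → V d | i ≠ j ∧ x i = x j} := by
    ext x
    simp [Diag]
  rw [this]
  refine isClosed_iUnion_of_finite fun i => isClosed_iUnion_of_finite fun j => ?_
  by_cases h : i = j
  · simp [h]
  · have h' : {x : Fin n → V d | i ≠ j ∧ x i = x j} = {x | x i = x j} := by
      ext x
      simp [h]
    rw [h']
    exact isClosed_eq (continuous_apply i) (continuous_apply j)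

/-- a function which is nonnegative off the diagonal has a locally integrable negative part -/
theorem negPart_of_nonneg {d n : ℕ} (s : (Fin n → V d) → ℝ)
    (h : ∀ x : Fin n → V d, x ∉ Diag d n → 0 ≤ s x) : NegPartLocInt n s := by
  unfold NegPartLocInt
  have hae : (fun x => max (-(s x)) 0) =ᵐ[volume.restrict (Diag d n)ᶜ] fun _ => (0 : ℝ) := by
    refine (ae_restrict_iff' (isClosed_Diag d n).measurableSet.compl).2
      (Eventually.of_forall fun x hx => ?_)
    have := h x hx
    simp [this]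
  have hz : LocallyIntegrable (fun _ : Fin n → V d => (0 : ℝ)) (volume.restrict (Diag d n)ᶜ) :=
    locallyIntegrable_zero
  exact hz.congr hae.symm

theorem pf_MAIN (hUMB : T_UMB) (hLMO : T_LMO) (hPOS : T_POS) (hRPM : T_RPM) (hDCM : T_DCM)
    (hTWP : T_TWP) (hLOB : T_LOB) (hDIF : T_DIF) (hLOC : T_LOC) (hGLU : T_GLU) (hPTB : T_PTB) :
    T_MAIN := by
  intro d a ha0 ha e he μ _ hT hR hS hlim
  obtain ⟨A, hA⟩ := hlim
  have hL : Lim A μ := hA
  obtain ⟨hM, hml⟩ := hLMO d e A μ hL
  have hdom : Dom μ := hPOS d e A μ hL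
  have hDC : IsDC μ := by
    refine hDCM d μ hM fun f => ?_
    obtain ⟨v, hv, hb⟩ := hUMB d e A μ hL f
    refine ⟨v, hv, fun p => ?_⟩
    rw [← ml_replicate]
    exact le_of_tendsto ((hml (List.replicate (2 * p) f)).mul_const _)
      (Eventually.of_forall fun k => hb p k)
  obtain ⟨c, hc⟩ := hTWP d a ha0 ha μ hT hS hR hM
  have hlob : Lob μ := hLOB d a c ha0 μ hdom hc
  have hrp : ∀ e' : V d, ‖e'‖ = 1 → RPos μ e' := hRPM d e A μ he hL hR
  have hdif : Dif μ := hDIF d μ hM hT hR hrp hlob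
  have key : ∀ n : ℕ, ∃ s : (Fin n → V d) → ℝ, Cond123 μ n s ∧
      ∀ x : Fin n → V d, x ∉ Diag d n →
        0 ≤ s x ∧ s x ≤ pair (fun i j => c * ‖x i - x j‖ ^ (-(2 * a))) Finset.univ := by
    intro n
    obtain ⟨s, hs⟩ := hGLU d μ hM n fun x hx => hLOC d μ hM hT hlob hdif n x hx
    have hb := hPTB d a c μ hdom hc n s hs
    refine ⟨s, ?_, hb⟩
    exact (Pool.Agent.H43.DPCS.final' a ha0 ha μ hT hS).1 hM n s hs
      (negPart_of_nonneg s fun x hx => (hb x hx).1)
  exact ⟨⟨hM, hDC, fun n => (key n).imp fun s h => h.1⟩, c, hc.1, key⟩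

end Pool.Agent.H80.LD
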