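import Pool.Agent.H80.LD.Targets2
import Pool.Agent.H80.LD.MAIN

/-!
# MP_47c37b: assembly of the rows, second form
-/

set_option autoImplicit false

open MeasureTheory SchwartzMap Filter Topology
open scoped ENNReal ContDiff InnerProductSpace

namespace Pool.Agent.H80.LD

open Pool.Agent.H43.DPC (V S SD moment trans rot IsMAO IsDC Diag NegPartLocInt)
open Pool.Agent.H43.DPCS (TransInv RotInv SelfSim Cond1 Cond123 IsDPC)

theorem good_of_reach (hFIN : T_FIN) (hCLO : T_CLO) {d : ℕ} (e : V d) (μ : Measure (SD d))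
    (h : Reach e μ) : Good e μ := by
  induction h with
  | fin A F hF => exact hFIN d e A F hF
  | lim ν μ _ hμ h ih => exact hCLO d e ν μ ih hμ h

theorem pf_MAIN2 (hFIN : T_FIN) (hCLO : T_CLO) (hEVB : T_EVB) (hROT : T_ROT) (hLRS : T_LRS)
    (hDCM : T_DCM) (hTWP : T_TWP) (hLOB : T_LOB) (hDIF : T_DIF) (hLOC : T_LOC) (hGLU : T_GLU)
    (hPTB : T_PTB) : T_MAIN2 := by
  refine ⟨?_, fun d L j δ κ κ' s g b w h1 h2 h3 h4 h5 h6 => ?_⟩
  · intro d a ha0 ha e he μ hre hT hR hS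
    obtain ⟨hprob, hdom, hrp0⟩ := good_of_reach hFIN hCLO e μ hre
    have hM := hdom.mao
    have hDC : IsDC μ := hDCM d μ hM fun f => hEVB d μ hdom f
    obtain ⟨c, hc⟩ := hTWP d a ha0 ha μ hT hS hR hM
    have hlob : Lob μ := hLOB d a c ha0 μ hdom hc
    have hrp : ∀ e' : V d, ‖e'‖ = 1 → RPos μ e' := fun e' he' => hROT d e e' μ he he' hR hrp0
    have hdif : Dif μ := hDIF d μ hM hT hR hrp hlob
    have key : ∀ n : ℕ, ∃ s : (Fin n → V d) → ℝ, Cond123 μ n s ∧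
        ∀ x : Fin n → V d, x ∉ Diag d n →
          0 ≤ s x ∧ s x ≤ pair (fun i j => c * ‖x i - x j‖ ^ (-(2 * a))) Finset.univ := by
      intro n
      obtain ⟨s, hs⟩ := hGLU d μ hM n fun x hx => hLOC d μ hM hT hlob hdif n x hx
      have hb := hPTB d a c μ hdom hc n s hs
      refine ⟨s, ?_, hb⟩
      exact (Pool.Agent.H43.DPCS.final' a ha0 ha μ hT hS).1 hM n s hs
        (negPart_of_nonneg s fun x hx => (hb x hx).1)
    exact ⟨⟨hM, hDC, fun n => (key n).imp fun s h => h.1⟩, c, hc.1, key⟩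
  · obtain ⟨A, F, F', hF, hF', hA⟩ := hLRS d L j δ κ κ' s g b w h1 h2 h3 h4 h5 h6
    refine ⟨F', hF', ?_⟩
    rw [← hA]
    exact Reach.fin A F hF

end Pool.Agent.H80.LD
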