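import Pool.Agent.H43.DPC.Stmt

/-!
# MP_47c37b: scaling limits of ferromagnetic reflection positive systems: definitions of the
statement

`V d = ℝ^d`, `S d`, `SD d` (real Schwartz functions, their weak-* dual with the Borel σ-algebra)
are in `Pool/Agent/H43/DPC/Defs.lean`, `TransInv`, `RotInv`, `SelfSim`, `Cond123`, `IsDPC` in
`Pool/Agent/H43/DPC/Stmt.lean`.
-/

set_option autoImplicit false

open MeasureTheory SchwartzMap Filter Topology
open scoped ENNReal ContDiff InnerProductSpace

namespace Pool.Agent.H80.LD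

open Pool.Agent.H43.DPC (V S SD)

noncomputable section

variable {d : ℕ}

/-- the reflection in the hyperplane orthogonal to `e` -/
def Re (e : V d) : V d ≃ₗᵢ[ℝ] V d := (Submodule.span ℝ {e})ᗮ.reflection

/-- Finite ferromagnetic `φ⁴` systems with sites in `ℝ^d`, reflection positive with respect to the
hyperplane orthogonal to `e`. The site `x` has the position `pos x` and carries the spin `φ x ∈ ℝ`
with the single spin density `exp (-(g x * s ^ 4 + b x * s ^ 2))`, `g x > 0`, `b x ∈ ℝ`; the pair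
couplings `J x y` are nonnegative. The system is symmetric under the reflection `σ`, no site is on
the hyperplane, and the matrix `J (σ x) y`, `x`, `y` on the side `⟪e, pos x⟫ > 0`, is positive
semidefinite. -/
structure Sys (d : ℕ) (e : V d) where
  N : ℕ
  pos : Fin N → V d
  w : Fin N → ℝ
  J : Fin N → Fin N → ℝ
  g : Fin N → ℝ
  b : Fin N → ℝ
  σ : Fin N → Fin N
  w_nonneg : ∀ x, 0 ≤ w x
  J_nonneg : ∀ x y, 0 ≤ J x y
  J_symm : ∀ x y, J x y = J y x
  g_pos : ∀ x, 0 < g x
  σ_σ : ∀ x, σ (σ x) = x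
  pos_σ : ∀ x, pos (σ x) = Re e (pos x)
  off : ∀ x, ⟪e, pos x⟫_ℝ ≠ 0
  w_σ : ∀ x, w (σ x) = w x
  g_σ : ∀ x, g (σ x) = g x
  b_σ : ∀ x, b (σ x) = b x
  J_σ : ∀ x y, J (σ x) (σ y) = J x y
  rp : ∀ c : Fin N → ℝ, (∀ x, ⟪e, pos x⟫_ℝ < 0 → c x = 0) →
    0 ≤ ∑ x, ∑ y, c x * c y * J (σ x) y

variable {e : V d}

/-- the energy of the spin configuration `φ` -/
def Sys.H (A : Sys d e) (φ : Fin A.N → ℝ) : ℝ :=
  ∑ x, (A.g x * φ x ^ 4 + A.b x * φ x ^ 2) - 1 / 2 * ∑ x, ∑ y, A.J x y * φ x * φ y

/-- the Gibbs measure: the probability measure with density proportional to `exp (-H)` -/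
def Sys.law (A : Sys d e) : Measure (Fin A.N → ℝ) :=
  (∫⁻ φ, ENNReal.ofReal (Real.exp (-A.H φ)))⁻¹ •
    volume.withDensity (fun φ => ENNReal.ofReal (Real.exp (-A.H φ)))

/-- the field `∑ w x * φ x * δ_(pos x)`, tested with `f` -/
def Sys.fld (A : Sys d e) (f : S d) (φ : Fin A.N → ℝ) : ℝ := ∑ x, A.w x * φ x * f (A.pos x)

/-- `μ` is the limit in law of the fields of a sequence of such systems: the characteristic
functionals converge. -/
def IsLim (e : V d) (μ : Measure (SD d)) : Prop :=
  ∃ A : ℕ → Sys d e, ∀ f : S d,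
    Tendsto (fun k => ∫ φ, Complex.exp (Complex.I * ((A k).fld f φ : ℂ)) ∂(A k).law) atTop
      (𝓝 (∫ T : SD d, Complex.exp (Complex.I * ((T f : ℝ) : ℂ)) ∂μ))

/-- The sum over the pairings of `S` of the products of the numbers `C i j` over the pairs; it is
`0` if the number of elements of `S` is odd. (The smallest element is paired with each of the other
elements.) -/
def pair {n : ℕ} (C : Fin n → Fin n → ℝ) (T : Finset (Fin n)) : ℝ :=
  if h : T.Nonempty then
    ∑ j ∈ (T.erase (T.min' h)).attach,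
      C (T.min' h) j.1 * pair C ((T.erase (T.min' h)).erase j.1)
  else 1
termination_by T.card
decreasing_by
  exact (Finset.card_lt_card (Finset.erase_ssubset j.2)).trans
    (Finset.card_lt_card (Finset.erase_ssubset (T.min'_mem h)))

end

end Pool.Agent.H80.LD
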