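import Pool.Agent.H80.LD.Stmt

/-!
# MP_47c37b: laws obtained from ferromagnetic reflection positive systems by limits; lattice systems
-/

set_option autoImplicit false

open MeasureTheory SchwartzMap Filter Topology
open scoped ENNReal ContDiff InnerProductSpace

namespace Pool.Agent.H80.LD

open Pool.Agent.H43.DPC (V S SD)

noncomputable section

/-- `F φ` is the distribution `∑ w x * φ x * δ_(pos x)` -/
def IsField {d : ℕ} {ι : Type} [Fintype ι] (pos : ι → V d) (w : ι → ℝ)
    (F : (ι → ℝ) → SD d) : Prop :=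
  ∀ (φ : ι → ℝ) (f : S d), F φ f = ∑ x, w x * φ x * f (pos x)

/-- The smallest class of laws on `S'(ℝ^d)` which contains the laws of the fields
`∑ w x * φ x * δ_(pos x)` of the finite systems and which contains with a sequence of laws also its
limit in law (the limit is a probability measure, and the characteristic functionals converge). -/
inductive Reach {d : ℕ} (e : V d) : Measure (SD d) → Prop
  | fin (A : Sys d e) (F : (Fin A.N → ℝ) → SD d) (hF : IsField A.pos A.w F) :
      Reach e (A.law.map F)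
  | lim (ν : ℕ → Measure (SD d)) (μ : Measure (SD d)) (hν : ∀ k, Reach e (ν k))
      (hμ : IsProbabilityMeasure μ)
      (h : ∀ f : S d,
        Tendsto (fun k => ∫ T : SD d, Complex.exp (Complex.I * ((T f : ℝ) : ℂ)) ∂(ν k)) atTop
          (𝓝 (∫ T : SD d, Complex.exp (Complex.I * ((T f : ℝ) : ℂ)) ∂μ))) : Reach e μ

/-- the sites of a lattice box with `(2L)^d` sites -/
abbrev Bx (d L : ℕ) : Type := Fin d → Fin (2 * L)

/-- the position of the site `x`: `δ (x - L + 1/2)` in each coordinate -/
def bpos (δ : ℝ) {d L : ℕ} (x : Bx d L) : V d :=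
  WithLp.toLp 2 (fun j => δ * (((x j : ℕ) : ℝ) - L + 1 / 2))

/-- the coupling of two sites at the distance `r`: `κ r^(-2s)`, and `κ'` is added if they are
nearest neighbours -/
def bJ (δ κ κ' s : ℝ) {d L : ℕ} (x y : Bx d L) : ℝ :=
  (if x = y then 0 else κ * ‖bpos δ x - bpos δ y‖ ^ (-(2 * s))) +
    if ‖bpos δ x - bpos δ y‖ = δ then κ' else 0

/-- the energy of the lattice `φ⁴` model -/
def bH (δ κ κ' s g b : ℝ) {d L : ℕ} (φ : Bx d L → ℝ) : ℝ :=
  ∑ x, (g * φ x ^ 4 + b * φ x ^ 2) - 1 / 2 * ∑ x, ∑ y, bJ δ κ κ' s x y * φ x * φ y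

/-- the Gibbs measure of the lattice `φ⁴` model: the probability measure with density proportional
to `exp (-bH φ)` -/
def bgibbs (d L : ℕ) (δ κ κ' s g b : ℝ) : Measure (Bx d L → ℝ) :=
  (∫⁻ φ : Bx d L → ℝ, ENNReal.ofReal (Real.exp (-bH δ κ κ' s g b φ)))⁻¹ •
    volume.withDensity (fun φ : Bx d L → ℝ => ENNReal.ofReal (Real.exp (-bH δ κ κ' s g b φ)))

end

end Pool.Agent.H80.LD
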