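import Pool.Agent.H80.LD.Defs

/-!
# MP_47c37b: scaling limits of ferromagnetic reflection positive systems: targets of the rows

The proof is on the page `H80_LDPC.md` of the team store.
-/

set_option autoImplicit false

open MeasureTheory SchwartzMap Filter Topology
open scoped ENNReal ContDiff InnerProductSpace FourierTransform

namespace Pool.Agent.H80.LD

open Pool.Agent.H43.DPC (V S SD moment trans rot IsMAO IsDC Diag)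
open Pool.Agent.H43.DPCS (TransInv RotInv SelfSim Cond1 Cond123 IsDPC)

noncomputable section

/-! ### A. Finite systems -/

/-- (LAW) the Gibbs measure. -/
def T_LAW : Prop := ∀ (d : ℕ) (e : V d) (A : Sys d e),
  (∀ C : ℝ, Integrable (fun φ : Fin A.N → ℝ => Real.exp (C * ∑ x, φ x ^ 2 - A.H φ))) ∧
  0 < ∫ φ, Real.exp (-A.H φ) ∧ IsProbabilityMeasure A.law ∧
  (∀ F : (Fin A.N → ℝ) → ℝ,
    ∫ φ, F φ ∂A.law = (∫ φ, F φ * Real.exp (-A.H φ)) / ∫ φ, Real.exp (-A.H φ)) ∧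
  (∀ (F : (Fin A.N → ℝ) → ℝ) (C : ℝ), Continuous F →
    (∀ φ, |F φ| ≤ C * Real.exp (C * ∑ x, φ x ^ 2)) → Integrable F A.law)

/-- (SSP) four replicas at one site. -/
def T_SSP : Prop := ∀ (g b : ℝ), 0 < g →
  (∀ C : ℝ, Integrable (fun y : Fin 4 → ℝ =>
    Real.exp (C * ∑ i, y i ^ 2 - ∑ i, (g * y i ^ 4 + b * y i ^ 2)))) ∧
  ∀ p q r s : ℕ, 0 ≤ ∫ y : Fin 4 → ℝ, al y ^ p * be y ^ q * ga y ^ r * de y ^ s *
    Real.exp (-∑ i, (g * y i ^ 4 + b * y i ^ 2))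

/-- (EXQ) expansion of a quadratic weight. -/
def T_EXQ : Prop := ∀ (Ω : Type) [MeasurableSpace Ω] (ν : Measure Ω) (ι : Type) [Fintype ι]
  (y : ι → Ω → ℝ) (q : ι → ι → ℝ), (∀ k, Measurable (y k)) →
  (∀ C : ℝ, Integrable (fun z => Real.exp (C * ∑ k, y k z ^ 2)) ν) →
  (∀ m : ι → ℕ, 0 ≤ ∫ z, ∏ k, y k z ^ m k ∂ν) → (∀ k l, 0 ≤ q k l) →
  ∀ m : ι → ℕ,
    0 ≤ ∫ z, (∏ k, y k z ^ m k) * Real.exp (∑ k, ∑ l, q k l * y k z * y l z) ∂ν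

/-- (GKS) the first Griffiths inequality. -/
def T_GKS : Prop := ∀ (d : ℕ) (e : V d) (A : Sys d e) (m : Fin A.N → ℕ),
  0 ≤ ∫ φ, ∏ x, φ x ^ m x ∂A.law ∧ (Odd (∑ x, m x) → ∫ φ, ∏ x, φ x ^ m x ∂A.law = 0)

/-- (FRP) positivity for four replicas. -/
def T_FRP : Prop := ∀ (d : ℕ) (e : V d) (A : Sys d e) (m : Fin A.N → Fin 4 → ℕ),
  0 ≤ ∫ Y : Fin 4 → (Fin A.N → ℝ), ∏ x, (al (fun i => Y i x) ^ m x 0 *
    be (fun i => Y i x) ^ m x 1 * ga (fun i => Y i x) ^ m x 2 * de (fun i => Y i x) ^ m x 3)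
    ∂(Measure.pi (fun _ : Fin 4 => A.law))

/-- (LEB) the Lebowitz inequality: `t_i = X_i + X_i'`, `q_i = X_i - X_i'`. -/
def T_LEB : Prop := ∀ (d : ℕ) (e : V d) (A : Sys d e) (n : ℕ) (c : Fin n → Fin A.N → ℝ),
  (∀ i x, 0 ≤ c i x) → ∀ T U : Finset (Fin n),
  ∫ z : (Fin A.N → ℝ) × (Fin A.N → ℝ), (∏ i ∈ T, ∑ x, c i x * (z.1 x + z.2 x)) *
    ∏ i ∈ U, ∑ x, c i x * (z.1 x - z.2 x) ∂(A.law.prod A.law) ≤
  (∫ z : (Fin A.N → ℝ) × (Fin A.N → ℝ), ∏ i ∈ T, ∑ x, c i x * (z.1 x + z.2 x)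
    ∂(A.law.prod A.law)) *
  ∫ z : (Fin A.N → ℝ) × (Fin A.N → ℝ), ∏ i ∈ U, ∑ x, c i x * (z.1 x - z.2 x)
    ∂(A.law.prod A.law)

/-- (ST4) the inequality `2^|T| a(T) ≤ (a * a * a * a)(T)`. -/
def T_ST4 : Prop := ∀ (d : ℕ) (e : V d) (A : Sys d e) (n : ℕ) (c : Fin n → Fin A.N → ℝ),
  (∀ i x, 0 ≤ c i x) → ∀ a : Finset (Fin n) → ℝ,
  (∀ T, a T = ∫ φ, ∏ i ∈ T, ∑ x, c i x * φ x ∂A.law) →
  ∀ T, 2 ^ T.card * a T ≤ cv (cv a a) (cv a a) T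

/-- (CVG) from the inequality to the pairings. -/
def T_CVG : Prop := ∀ (n : ℕ) (C : Fin n → Fin n → ℝ) (a : Finset (Fin n) → ℝ),
  (∀ T, 0 ≤ a T) → a ∅ = 1 → (∀ i j, i ≠ j → a {i, j} = C i j) →
  (∀ T, Odd T.card → a T = 0) → (∀ T, 2 ^ T.card * a T ≤ cv (cv a a) (cv a a) T) →
  ∀ T, a T ≤ pair C T

/-- (PRB) properties of the sum over the pairings. -/
structure T_PRB : Prop where
  mono : ∀ (n : ℕ) (C C' : Fin n → Fin n → ℝ) (T : Finset (Fin n)),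
    (∀ i ∈ T, ∀ j ∈ T, i ≠ j → 0 ≤ C i j) → (∀ i ∈ T, ∀ j ∈ T, i ≠ j → C i j ≤ C' i j) →
    0 ≤ pair C T ∧ pair C T ≤ pair C' T
  bound : ∀ (n : ℕ) (C : Fin n → Fin n → ℝ) (K : ℝ) (u : Fin n → ℝ) (T : Finset (Fin n)),
    0 ≤ K → (∀ i, 0 ≤ u i) → (∀ i ∈ T, ∀ j ∈ T, i ≠ j → 0 ≤ C i j) →
    (∀ i ∈ T, ∀ j ∈ T, i ≠ j → C i j ≤ K * (u i * u j)) →
    pair C T ≤ (T.card.factorial : ℝ) * K ^ (T.card / 2) * ∏ i ∈ T, u i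
  const : ∀ (n : ℕ) (v : ℝ) (T : Finset (Fin n)) (k : ℕ), T.card = 2 * k →
    pair (fun _ _ => v) T * (2 ^ k * (k.factorial : ℝ)) = ((2 * k).factorial : ℝ) * v ^ k
  scale : ∀ (n : ℕ) (C : Fin n → Fin n → ℝ) (u : Fin n → ℝ) (T : Finset (Fin n)) (k : ℕ),
    T.card = 2 * k → pair (fun i j => C i j * (u i * u j)) T = pair C T * ∏ i ∈ T, u i
  cont : ∀ (n : ℕ) (T : Finset (Fin n)), Continuous (fun C : Fin n → Fin n → ℝ => pair C T)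
  odd : ∀ (n : ℕ) (C : Fin n → Fin n → ℝ) (T : Finset (Fin n)), Odd T.card → pair C T = 0

/-- (GAF) correlation inequalities for the field of a finite system. -/
structure T_GAF : Prop where
  pos : ∀ (d : ℕ) (e : V d) (A : Sys d e) (l : List (S d)), (∀ f ∈ l, ∀ x, 0 ≤ f x) → 0 ≤ mf A l
  maj : ∀ (d : ℕ) (e : V d) (A : Sys d e) (n : ℕ) (f h : Fin n → S d),
    (∀ i x, |f i x| ≤ h i x) → |mf A (List.ofFn f)| ≤ mf A (List.ofFn h)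
  odd : ∀ (d : ℕ) (e : V d) (A : Sys d e) (l : List (S d)), Odd l.length → mf A l = 0
  gau : ∀ (d : ℕ) (e : V d) (A : Sys d e) (n : ℕ) (h : Fin n → S d), (∀ i x, 0 ≤ h i x) →
    mf A (List.ofFn h) ≤ pair (fun i j => mf A [h i, h j]) Finset.univ

/-- (RPF) reflection positivity of the finite systems. -/
def T_RPF : Prop := ∀ (d : ℕ) (e : V d) (A : Sys d e) (m : ℕ) (c : Fin m → ℝ)
  (F : Fin m → List (S d)), (∀ j, ∀ f ∈ F j, ∀ x, f x ≠ 0 → 0 < ⟪e, x⟫_ℝ) →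
  0 ≤ ∑ j, ∑ l, c j * c l * mf A ((F j).map (rot (Re e)) ++ F l)

/-! ### B. The limit -/

/-- (MAJ) Schwartz majorants. -/
def T_MAJ : Prop := ∀ (d : ℕ) (f : S d), ∃ h : S d, ∀ x, |f x| ≤ h x

/-- (KTS) tightness bounds the second moments. -/
def T_KTS : Prop := ∀ (ν : ℕ → Measure ℝ) (ν' : Measure ℝ), (∀ k, IsProbabilityMeasure (ν k)) →
  IsProbabilityMeasure ν' →
  (∀ t : ℝ, Tendsto (fun k => ∫ x, Complex.exp (Complex.I * ((t * x : ℝ) : ℂ)) ∂(ν k)) atTop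
    (𝓝 (∫ x, Complex.exp (Complex.I * ((t * x : ℝ) : ℂ)) ∂ν'))) →
  (∀ k, Integrable (fun x : ℝ => x ^ 4) (ν k)) →
  (∀ k, ∫ x, x ^ 4 ∂(ν k) ≤ 3 * (∫ x, x ^ 2 ∂(ν k)) ^ 2) → ∃ C : ℝ, ∀ k, ∫ x, x ^ 2 ∂(ν k) ≤ C

/-- (WMC) convergence of the moments. -/
def T_WMC : Prop := ∀ (ν : ℕ → Measure ℝ) (ν' : Measure ℝ), (∀ k, IsProbabilityMeasure (ν k)) →
  IsProbabilityMeasure ν' →
  (∀ t : ℝ, Tendsto (fun k => ∫ x, Complex.exp (Complex.I * ((t * x : ℝ) : ℂ)) ∂(ν k)) atTop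
    (𝓝 (∫ x, Complex.exp (Complex.I * ((t * x : ℝ) : ℂ)) ∂ν'))) →
  (∀ p : ℕ, (∀ k, Integrable (fun x : ℝ => x ^ (2 * p)) (ν k)) ∧
    ∃ C : ℝ, ∀ k, ∫ x, x ^ (2 * p) ∂(ν k) ≤ C) →
  ∀ p : ℕ, Integrable (fun x : ℝ => x ^ p) ν' ∧
    Tendsto (fun k => ∫ x, x ^ p ∂(ν k)) atTop (𝓝 (∫ x, x ^ p ∂ν'))

/-- (POL) polarisation. -/
def T_POL : Prop := ∀ (n : ℕ) (x : Fin n → ℝ),
  (2 ^ n * (n.factorial : ℝ)) * ∏ i, x i =
    ∑ ε : Fin n → Bool, (∏ i, (if ε i then (1 : ℝ) else -1)) *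
      (∑ i, (if ε i then (1 : ℝ) else -1) * x i) ^ n

/-- (UMB) uniform bounds for the moments of the approximating fields. -/
def T_UMB : Prop := ∀ (d : ℕ) (e : V d) (A : ℕ → Sys d e) (μ : Measure (SD d))
  [IsProbabilityMeasure μ], Lim A μ → ∀ (f : S d), ∃ v : ℝ, 0 ≤ v ∧ ∀ (p k : ℕ),
    mf (A k) (List.replicate (2 * p) f) * (2 ^ p * (p.factorial : ℝ)) ≤
      ((2 * p).factorial : ℝ) * v ^ p

/-- (LMO) convergence of the moments. -/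
def T_LMO : Prop := ∀ (d : ℕ) (e : V d) (A : ℕ → Sys d e) (μ : Measure (SD d))
  [IsProbabilityMeasure μ], Lim A μ → IsMAO μ ∧
    ∀ l : List (S d), Tendsto (fun k => mf (A k) l) atTop (𝓝 (ml μ l))

/-- (POS) the correlation inequalities for the limit. -/
def T_POS : Prop := ∀ (d : ℕ) (e : V d) (A : ℕ → Sys d e) (μ : Measure (SD d))
  [IsProbabilityMeasure μ], Lim A μ → Dom μ

/-- (RPM) reflection positivity of the limit, in all directions. -/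
def T_RPM : Prop := ∀ (d : ℕ) (e : V d) (A : ℕ → Sys d e) (μ : Measure (SD d))
  [IsProbabilityMeasure μ], ‖e‖ = 1 → Lim A μ → RotInv μ → ∀ e' : V d, ‖e'‖ = 1 → RPos μ e'

/-- (SSC) the Schwartz space is second countable. -/
def T_SSC : Prop := ∀ d : ℕ, SecondCountableTopology (S d)

/-- (CYL) the Borel sets are the cylinder sets. -/
def T_CYL : Prop := ∀ d : ℕ,
  borel (SD d) = ⨆ f : S d, MeasurableSpace.comap (fun T : SD d => T f) (borel ℝ)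

/-- (ECF) laws with equal characteristic functionals are equal. -/
def T_ECF : Prop := ∀ (d : ℕ) (μ μ' : Measure (SD d)), IsProbabilityMeasure μ →
  IsProbabilityMeasure μ' →
  (∀ f : S d, ∫ T : SD d, Complex.exp (Complex.I * ((T f : ℝ) : ℂ)) ∂μ =
    ∫ T : SD d, Complex.exp (Complex.I * ((T f : ℝ) : ℂ)) ∂μ') → μ = μ'

/-- (DCM) determinacy from the growth of the moments. -/
def T_DCM : Prop := ∀ (d : ℕ) (μ : Measure (SD d)) [IsProbabilityMeasure μ], IsMAO μ →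
  (∀ f : S d, ∃ v : ℝ, 0 ≤ v ∧ ∀ p : ℕ,
    (∫ T : SD d, (T f) ^ (2 * p) ∂μ) * (2 ^ p * (p.factorial : ℝ)) ≤
      ((2 * p).factorial : ℝ) * v ^ p) → IsDC μ

/-! ### D. Differences -/

/-- (SGP) the semigroup estimate. -/
def T_SGP : Prop := ∀ (W : Type) [AddCommGroup W] [Module ℝ W] (B : W →ₗ[ℝ] W →ₗ[ℝ] ℝ)
  (τ : ℝ → W →ₗ[ℝ] W), (∀ F G, B F G = B G F) → (∀ F, 0 ≤ B F F) → (∀ F, τ 0 F = F) →
  (∀ s t F, 0 ≤ s → 0 ≤ t → τ (s + t) F = τ s (τ t F)) →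
  (∀ s F G, 0 ≤ s → B F (τ s G) = B (τ s F) G) →
  (∀ F, ∃ K : ℝ, ∀ s, 0 ≤ s → B F (τ s F) ≤ K) →
  ∀ (m : ℕ) (t h : ℝ), 0 < h → m * h ≤ t → ∀ F G : W,
    |∑ i ∈ Finset.range (m + 1), (-1) ^ i * (m.choose i : ℝ) * B F (τ (t + i * h) G)| ≤
      (2 * m * h / t) ^ m * (Real.sqrt (B F F) * Real.sqrt (B G G))

/-- (RPD) differences in the direction `e`; the hyperplane is `⟪e, x⟫ = 0`. -/
def T_RPD : Prop := ∀ (d : ℕ) (μ : Measure (SD d)) [IsProbabilityMeasure μ], IsMAO μ →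
  TransInv μ → RotInv μ → ∀ e : V d, ‖e‖ = 1 → RPos μ e → ∀ (A L : List (S d)) (t : ℝ) (m : ℕ)
  (h : ℝ), (∀ f ∈ A, ∀ x, f x ≠ 0 → ⟪e, x⟫_ℝ < 0) → (∀ f ∈ L, ∀ x, f x ≠ 0 → t < ⟪e, x⟫_ℝ) →
  0 < h → m * h ≤ t → 0 < t →
    |∑ i ∈ Finset.range (m + 1), (-1) ^ i * (m.choose i : ℝ) *
      ml μ (A ++ L.map (trans (((i : ℝ) * h) • e)))| ≤
    (2 * m * h / t) ^ m * (Real.sqrt (ml μ (A.map (rot (Re e)) ++ A)) *
      Real.sqrt (ml μ ((L.map (trans ((-t) • e))).map (rot (Re e)) ++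
        L.map (trans ((-t) • e)))))

/-- (SMJ) smooth majorants in `L¹`. -/
def T_SMJ : Prop := ∀ (d : ℕ) (f : S d) (ε η : ℝ), HasCompactSupport f → 0 < ε → 0 < η →
  ∃ h : S d, (∀ x, |f x| ≤ h x) ∧ HasCompactSupport h ∧
    tsupport h ⊆ Metric.cthickening η (tsupport f) ∧ ∫ x, h x ≤ (∫ x, |f x|) + ε

/-- (TWP) the two point function. -/
def T_TWP : Prop := ∀ (d : ℕ) (a : ℝ), 0 < a → 2 * a < d → ∀ (μ : Measure (SD d))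
  [IsProbabilityMeasure μ], TransInv μ → SelfSim a μ → RotInv μ → IsMAO μ → ∃ c : ℝ, Two μ a c

/-- (LOB) local boundedness of the moments. -/
def T_LOB : Prop := ∀ (d : ℕ) (a c : ℝ), 0 < a → ∀ (μ : Measure (SD d))
  [IsProbabilityMeasure μ], Dom μ → Two μ a c → Lob μ

/-- (DIF) differences of the moments. -/
def T_DIF : Prop := ∀ (d : ℕ) (μ : Measure (SD d)) [IsProbabilityMeasure μ], IsMAO μ →
  TransInv μ → RotInv μ → (∀ e : V d, ‖e‖ = 1 → RPos μ e) → Lob μ → Dif μ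

/-! ### E. Regularity -/

/-- (MOL) mollified moments. -/
def T_MOL : Prop := ∀ (d : ℕ) (μ : Measure (SD d)) [IsProbabilityMeasure μ], IsMAO μ →
  TransInv μ → ∀ (n : ℕ) (ρ : S d) (f h : Fin n → S d),
  (∀ j x, h j x = ∫ y, f j y * ρ (x - y)) →
    Continuous (fun x : Fin n → V d => moment μ (fun j => trans (x j) ρ)) ∧
    Integrable (fun x : Fin n → V d => (∏ j, f j (x j)) * moment μ (fun j => trans (x j) ρ)) ∧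
    moment μ h = ∫ x : Fin n → V d, (∏ j, f j (x j)) * moment μ (fun j => trans (x j) ρ)

/-- (MCV) convergence of the mollified moments, off the diagonal. -/
def T_MCV : Prop := ∀ (d : ℕ) (μ : Measure (SD d)) [IsProbabilityMeasure μ], IsMAO μ →
  Lob μ → ∀ (n : ℕ) (f : Fin n → S d), (∀ i, HasCompactSupport (f i)) →
  (∀ i j, i ≠ j → Disjoint (tsupport (f i)) (tsupport (f j))) →
  ∀ (ρ : ℕ → S d) (h : ℕ → Fin n → S d), (∀ k x, 0 ≤ ρ k x) → (∀ k, ∫ x, ρ k x = 1) →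
  (∀ k x, ρ k x ≠ 0 → ‖x‖ ≤ 1 / (k + 1 : ℝ)) →
  (∀ k j x, h k j x = ∫ y, f j y * ρ k (x - y)) →
    Tendsto (fun k => moment μ (h k)) atTop (𝓝 (moment μ f))

/-- (DIR) the directions. -/
def T_DIR : Prop := ∀ (d n : ℕ) (x : Fin n → V d), x ∉ Diag d n →
  ∃ (D : Finset (Fin n → V d)) (δ : ℝ), 0 < δ ∧ Submodule.span ℝ (D : Set (Fin n → V d)) = ⊤ ∧
    ∀ v ∈ D, ∃ (e : V d) (R : Finset (Fin n)) (c : ℝ), ‖e‖ = 1 ∧
      (v = fun j => if j ∈ R then e else 0) ∧ (∀ j ∉ R, ⟪e, x j⟫_ℝ ≤ c - δ) ∧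
      ∀ j ∈ R, c + δ ≤ ⟪e, x j⟫_ℝ

/-- (FDC) decay of the Fourier transform from bounds for the differences. -/
def T_FDC : Prop := ∀ (E : Type) [NormedAddCommGroup E] [InnerProductSpace ℝ E]
  [FiniteDimensional ℝ E] [MeasurableSpace E] [BorelSpace E] (χ : E → ℝ) (U : Set E)
  (D : Finset E) (C η : ℕ → ℝ), ContDiff ℝ ∞ χ → HasCompactSupport χ → IsOpen U →
  tsupport χ ⊆ U → Submodule.span ℝ (D : Set E) = ⊤ → D.Nonempty → (∀ m, 0 < η m) →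
  ∀ M : ℕ, ∃ K : ℝ, ∀ s : E → ℝ, ContinuousOn s U →
    (∀ m, ∀ v ∈ D, ∀ h : ℝ, 0 < h → h ≤ η m → ∀ x ∈ U, (∀ i ≤ m, x + ((i : ℝ) * h) • v ∈ U) →
      |dm m h v s x| ≤ C m * h ^ m) →
    ∀ ξ : E, ‖ξ‖ ^ M * ‖𝓕 (fun x => ((χ x * s x : ℝ) : ℂ)) ξ‖ ≤ K

/-- (LRG) limits of functions with uniformly decaying Fourier transforms. -/
def T_LRG : Prop := ∀ (E : Type) [NormedAddCommGroup E] [InnerProductSpace ℝ E]
  [FiniteDimensional ℝ E] [MeasurableSpace E] [BorelSpace E] (u : ℕ → E → ℝ) (K : Set E),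
  IsCompact K → (∀ k, Continuous (u k)) → (∀ k, ∀ x ∉ K, u k x = 0) →
  (∀ M : ℕ, ∃ C : ℝ, ∀ k ξ, ‖ξ‖ ^ M * ‖𝓕 (fun x => ((u k x : ℝ) : ℂ)) ξ‖ ≤ C) →
  (∀ (x : E) (δ : ℝ), 0 < δ → ∃ g : E → ℝ, Continuous g ∧ (∀ y, 0 ≤ g y) ∧ ∫ y, g y = 1 ∧
    (∀ y, g y ≠ 0 → ‖y - x‖ ≤ δ) ∧ ∃ l : ℝ, Tendsto (fun k => ∫ y, u k y * g y) atTop (𝓝 l)) →
  ∃ (u' : E → ℝ) (B : ℝ), ContDiff ℝ ∞ u' ∧ (∀ k x, |u k x| ≤ B) ∧
    ∀ x, Tendsto (fun k => u k x) atTop (𝓝 (u' x))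

/-- (REG) regularity from the bounds for the differences. -/
def T_REG : Prop := ∀ (E : Type) [NormedAddCommGroup E] [NormedSpace ℝ E]
  [FiniteDimensional ℝ E] [MeasurableSpace E] [BorelSpace E] (ν : Measure E)
  [ν.IsAddHaarMeasure] (χ : E → ℝ) (U : Set E) (D : Finset E) (C η : ℕ → ℝ) (s : ℕ → E → ℝ),
  ContDiff ℝ ∞ χ → HasCompactSupport χ → IsOpen U → tsupport χ ⊆ U →
  Submodule.span ℝ (D : Set E) = ⊤ → (∀ m, 0 < η m) → (∀ k, ContinuousOn (s k) U) →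
  (∀ k m, ∀ v ∈ D, ∀ h : ℝ, 0 < h → h ≤ η m → ∀ x ∈ U, (∀ i ≤ m, x + ((i : ℝ) * h) • v ∈ U) →
    |dm m h v (s k) x| ≤ C m * h ^ m) →
  (∀ (x : E) (δ : ℝ), 0 < δ → ∃ g : E → ℝ, Continuous g ∧ (∀ y, 0 ≤ g y) ∧ ∫ y, g y ∂ν = 1 ∧
    (∀ y, g y ≠ 0 → ‖y - x‖ ≤ δ) ∧
    ∃ l : ℝ, Tendsto (fun k => ∫ y, χ y * s k y * g y ∂ν) atTop (𝓝 l)) →
  ∃ (u : E → ℝ) (B : ℝ), ContDiff ℝ ∞ u ∧ (∀ k x, |χ x * s k x| ≤ B) ∧
    ∀ x, Tendsto (fun k => χ x * s k x) atTop (𝓝 (u x))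

/-- (LOC) near off-diagonal points the moments are smooth functions. -/
def T_LOC : Prop := ∀ (d : ℕ) (μ : Measure (SD d)) [IsProbabilityMeasure μ], IsMAO μ →
  TransInv μ → Lob μ → Dif μ → ∀ (n : ℕ) (x : Fin n → V d), x ∉ Diag d n → LocP μ n x

/-- (GLU) gluing. -/
def T_GLU : Prop := ∀ (d : ℕ) (μ : Measure (SD d)) [IsProbabilityMeasure μ], IsMAO μ →
  ∀ n : ℕ, (∀ x : Fin n → V d, x ∉ Diag d n → LocP μ n x) →
    ∃ s : (Fin n → V d) → ℝ, Cond1 μ n s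

/-- (PTB) pointwise bounds. -/
def T_PTB : Prop := ∀ (d : ℕ) (a c : ℝ) (μ : Measure (SD d)) [IsProbabilityMeasure μ], Dom μ →
  Two μ a c → ∀ (n : ℕ) (s : (Fin n → V d) → ℝ), Cond1 μ n s → ∀ x : Fin n → V d,
  x ∉ Diag d n → 0 ≤ s x ∧ s x ≤ pair (fun i j => c * ‖x i - x j‖ ^ (-(2 * a))) Finset.univ

/-- The main theorem. -/
def T_MAIN : Prop := ∀ (d : ℕ) (a : ℝ), 0 < a → 2 * a < d → ∀ e : V d, ‖e‖ = 1 →
  ∀ (μ : Measure (SD d)) [IsProbabilityMeasure μ], TransInv μ → RotInv μ → SelfSim a μ →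
  IsLim e μ → IsDPC μ ∧ ∃ c : ℝ, 0 ≤ c ∧ ∀ n : ℕ, ∃ s : (Fin n → V d) → ℝ, Cond123 μ n s ∧
    ∀ x : Fin n → V d, x ∉ Diag d n →
      0 ≤ s x ∧ s x ≤ pair (fun i j => c * ‖x i - x j‖ ^ (-(2 * a))) Finset.univ

end

end Pool.Agent.H80.LD
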