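import Pool.Agent.H80.LD.Targets
import Pool.Agent.H80.LD.Stmt2

/-!
# MP_47c37b: the class `Reach`: targets of the rows
-/

set_option autoImplicit false

open MeasureTheory SchwartzMap Filter Topology
open scoped ENNReal ContDiff InnerProductSpace

namespace Pool.Agent.H80.LD

open Pool.Agent.H43.DPC (V S SD moment trans rot IsMAO IsDC Diag)
open Pool.Agent.H43.DPCS (TransInv RotInv SelfSim Cond1 Cond123 IsDPC)

noncomputable section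

/-- the distribution `δ_x`, that is `f ↦ f x` -/
def ev {d : ℕ} (x : V d) : SD d :=
  StrongDual.toWeakDual ((BoundedContinuousFunction.evalCLM ℝ x).comp
    (toBoundedContinuousFunctionCLM ℝ (V d) ℝ))

/-- the properties which survive limits in law -/
structure Good {d : ℕ} (e : V d) (μ : Measure (SD d)) : Prop where
  prob : IsProbabilityMeasure μ
  dom : Dom μ
  rp : RPos μ e

/-- (FIN) finite systems. -/
def T_FIN : Prop := ∀ (d : ℕ) (e : V d) (A : Sys d e) (F : (Fin A.N → ℝ) → SD d),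
  IsField A.pos A.w F → Good e (A.law.map F)

/-- (CLO) limits. -/
def T_CLO : Prop := ∀ (d : ℕ) (e : V d) (ν : ℕ → Measure (SD d)) (μ : Measure (SD d)),
  (∀ k, Good e (ν k)) → IsProbabilityMeasure μ →
  (∀ f : S d,
    Tendsto (fun k => ∫ T : SD d, Complex.exp (Complex.I * ((T f : ℝ) : ℂ)) ∂(ν k)) atTop
      (𝓝 (∫ T : SD d, Complex.exp (Complex.I * ((T f : ℝ) : ℂ)) ∂μ))) → Good e μ

/-- (EVB) growth of the even moments. -/
def T_EVB : Prop := ∀ (d : ℕ) (μ : Measure (SD d)) [IsProbabilityMeasure μ], Dom μ →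
  ∀ f : S d, ∃ v : ℝ, 0 ≤ v ∧ ∀ p : ℕ,
    (∫ T : SD d, (T f) ^ (2 * p) ∂μ) * (2 ^ p * (p.factorial : ℝ)) ≤
      ((2 * p).factorial : ℝ) * v ^ p

/-- (ROT) reflection positivity in all directions. -/
def T_ROT : Prop := ∀ (d : ℕ) (e e' : V d) (μ : Measure (SD d)) [IsProbabilityMeasure μ],
  ‖e‖ = 1 → ‖e'‖ = 1 → RotInv μ → RPos μ e → RPos μ e'

/-- (GLS) a special integral. -/
def T_GLS : Prop := ∀ r w : ℝ, 0 < r → 0 < w →
  IntegrableOn (fun l : ℝ => l ^ (-(3 / 2) : ℝ) * Real.exp (-(l * r ^ 2) - w ^ 2 / (4 * l)))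
    (Set.Ioi 0) ∧
  ∫ l in Set.Ioi (0 : ℝ), l ^ (-(3 / 2) : ℝ) * Real.exp (-(l * r ^ 2) - w ^ 2 / (4 * l)) =
    2 * Real.sqrt Real.pi / w * Real.exp (-(r * w))

/-- (RPK) the power law is reflection positive. -/
def T_RPK : Prop := ∀ (d : ℕ) (e : V d), ‖e‖ = 1 → ∀ s : ℝ, (d : ℝ) ≤ 2 * s →
  ∀ (n : ℕ) (x : Fin n → V d) (c : Fin n → ℝ), (∀ i, 0 < ⟪e, x i⟫_ℝ) →
    0 ≤ ∑ i, ∑ j, c i * c j * ‖Re e (x i) - x j‖ ^ (-(2 * s))

/-- (LRS) the lattice systems. -/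
def T_LRS : Prop := ∀ (d L : ℕ) (j : Fin d) (δ κ κ' s g b w : ℝ), 0 < δ → 0 ≤ κ → 0 ≤ κ' →
  (d : ℝ) ≤ 2 * s → 0 < g → 0 ≤ w →
  ∃ (A : Sys d (EuclideanSpace.single j 1)) (F : (Fin A.N → ℝ) → SD d)
    (F' : (Bx d L → ℝ) → SD d), IsField A.pos A.w F ∧ IsField (bpos δ) (fun _ => w) F' ∧
      A.law.map F = (bgibbs d L δ κ κ' s g b).map F'

/-- The main theorem. -/
def T_MAIN2 : Prop :=
  (∀ (d : ℕ) (a : ℝ), 0 < a → 2 * a < d → ∀ e : V d, ‖e‖ = 1 → ∀ μ : Measure (SD d),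
    Reach e μ → TransInv μ → RotInv μ → SelfSim a μ →
    IsDPC μ ∧ ∃ c : ℝ, 0 ≤ c ∧ ∀ n : ℕ, ∃ s : (Fin n → V d) → ℝ, Cond123 μ n s ∧
      ∀ x : Fin n → V d, x ∉ Diag d n →
        0 ≤ s x ∧ s x ≤ pair (fun i j => c * ‖x i - x j‖ ^ (-(2 * a))) Finset.univ) ∧
  ∀ (d L : ℕ) (j : Fin d) (δ κ κ' s g b w : ℝ), 0 < δ → 0 ≤ κ → 0 ≤ κ' → (d : ℝ) ≤ 2 * s →
    0 < g → 0 ≤ w → ∃ F : (Bx d L → ℝ) → SD d, IsField (bpos δ) (fun _ => w) F ∧
      Reach (EuclideanSpace.single j 1) ((bgibbs d L δ κ κ' s g b).map F)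

end

end Pool.Agent.H80.LD
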